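import Mathlib

/-!
# The curves `y² = x³ - D²x` and the naive height `h(x / D)`
-/

namespace Pool.Agent.RB

open WeierstrassCurve WeierstrassCurve.Affine Height

/-- The curve `y² = x³ - D² x`. -/
noncomputable def W (D : ℚ) : WeierstrassCurve ℚ := ⟨0, 0, 0, -D ^ 2, 0⟩

/-- The group of the rational points of `y² = x³ - D² x`. -/
noncomputable abbrev Pt (D : ℚ) := (W D).toAffine.Point

@[simp] lemma W_a1 (D : ℚ) : (W D).a₁ = 0 := rfl
@[simp] lemma W_a2 (D : ℚ) : (W D).a₂ = 0 := rfl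
@[simp] lemma W_a3 (D : ℚ) : (W D).a₃ = 0 := rfl
@[simp] lemma W_a4 (D : ℚ) : (W D).a₄ = -D ^ 2 := rfl
@[simp] lemma W_a6 (D : ℚ) : (W D).a₆ = 0 := rfl

instance : (W 1).IsElliptic where
  isUnit := by
    simp [WeierstrassCurve.Δ, WeierstrassCurve.b₂, WeierstrassCurve.b₄, WeierstrassCurve.b₆,
      WeierstrassCurve.b₈]

lemma equation_iff' (D x y : ℚ) : (W D).toAffine.Equation x y ↔ y ^ 2 = x ^ 3 - D ^ 2 * x := by
  rw [WeierstrassCurve.Affine.equation_iff]
  simp only [W_a1, W_a2, W_a3, W_a4, W_a6]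
  constructor <;> intro h <;> linarith

lemma nonsingular_iff' {D : ℚ} (hD : D ≠ 0) (x y : ℚ) :
    (W D).toAffine.Nonsingular x y ↔ y ^ 2 = x ^ 3 - D ^ 2 * x := by
  rw [WeierstrassCurve.Affine.nonsingular_iff, equation_iff']
  simp only [W_a1, W_a2, W_a3, W_a4]
  refine ⟨fun h => h.1, fun h => ⟨h, ?_⟩⟩
  by_contra hc
  push Not at hc
  obtain ⟨h1, h2⟩ := hc
  have hy : y = 0 := by linarith
  subst hy
  have h1' : 3 * x ^ 2 = D ^ 2 := by linarith
  have h3 : x * (x ^ 2 - D ^ 2) = 0 := by linarith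
  rcases mul_eq_zero.mp h3 with h4 | h4
  · subst h4
    apply hD
    have : D ^ 2 = 0 := by linarith
    exact pow_eq_zero_iff (two_ne_zero) |>.mp this
  · apply hD
    have : D ^ 2 = 0 := by linarith
    exact pow_eq_zero_iff (two_ne_zero) |>.mp this

/-- Coordinates on the Kummer line. -/
noncomputable def ka {D : ℚ} (P : Pt D) : ℚ := P.xRep 0 / D
/-- Coordinates on the Kummer line. -/
noncomputable def kb {D : ℚ} (P : Pt D) : ℚ := P.xRep 1

/-- The naive height of `x / D`. -/
noncomputable def hn {D : ℚ} (P : Pt D) : ℝ := logHeight ![ka P, kb P]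

lemma hn_some {D x y : ℚ} (h : (W D).toAffine.Nonsingular x y) :
    hn (Point.some x y h : Pt D) = logHeight₁ (x / D) := by
  simp [hn, ka, kb, logHeight₁_eq_logHeight]

lemma hn_neg {D : ℚ} (P : Pt D) : hn (-P) = hn P := by
  simp [hn, ka, kb]

lemma kab_ne {D : ℚ} (hD : D ≠ 0) (P : Pt D) : ![ka P, kb P] ≠ 0 := by
  intro h
  have h0 := congrFun h 0
  have h1 := congrFun h 1
  simp only [ka, kb, Matrix.cons_val_zero, Pi.zero_apply, Matrix.cons_val_one] at h0 h1
  apply P.xRep_ne_zero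
  ext i
  fin_cases i
  · simpa [hD] using h0
  · simpa using h1

/-- the sym2 vector -/
noncomputable def sy {D : ℚ} (P Q : Pt D) : Fin 3 → ℚ :=
  ![ka P * ka Q, ka P * kb Q + kb P * ka Q, kb P * kb Q]

lemma eval_addSub (s t u : ℚ) :
    (fun i => (addSubMap (W 1) i).eval ![s, t, u]) =
      ![(s + u) ^ 2, 2 * t * (s - u), t ^ 2 - 4 * s * u] := by
  ext i
  fin_cases i <;>
    simp [addSubMap, WeierstrassCurve.b₂, WeierstrassCurve.b₄, WeierstrassCurve.b₆,
      WeierstrassCurve.b₈] <;> ring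

lemma sy_neg {D : ℚ} (P Q : Pt D) : sy P (-Q) = sy P Q := by
  simp [sy, ka, kb]

lemma sy_comm {D : ℚ} (P Q : Pt D) : sy P Q = sy Q P := by
  simp only [sy]
  congr 1
  · ring
  · congr 1
    · ring
    · congr 1; ring

/-- The map `addSubMap` does what it is claimed to do, and in the coordinate `x / D` it does not
depend on `D`. -/
lemma sy_add_sub {D : ℚ} (hD : D ≠ 0) (P Q : Pt D) :
    ∃ c : ℚ, c ≠ 0 ∧ sy (P + Q) (P - Q) = c • (fun i => (addSubMap (W 1) i).eval (sy P Q)) := by
  have e0 : ∀ P Q : Pt D, (fun i => (addSubMap (W 1) i).eval (sy P Q)) =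
      ![(ka P * ka Q + kb P * kb Q) ^ 2, 2 * (ka P * kb Q + kb P * ka Q) *
        (ka P * ka Q - kb P * kb Q), (ka P * kb Q + kb P * ka Q) ^ 2 -
          4 * (ka P * ka Q) * (kb P * kb Q)] := fun P Q => eval_addSub _ _ _
  rcases P with _ | ⟨x1, y1, h1⟩
  · refine ⟨D ^ 2, pow_ne_zero _ hD, ?_⟩
    rw [e0]
    change sy ((0 : Pt D) + Q) (0 - Q) = D ^ 2 • _
    rw [zero_add, zero_sub, sy_neg]
    have a0 : ka (Point.zero : Pt D) = 1 / D := rfl
    have b0 : kb (Point.zero : Pt D) = 0 := rfl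
    rw [a0, b0]
    ext i
    fin_cases i <;> simp [sy] <;> field_simp
    ring
  rcases Q with _ | ⟨x2, y2, h2⟩
  · refine ⟨D ^ 2, pow_ne_zero _ hD, ?_⟩
    rw [e0]
    change sy ((Point.some x1 y1 h1 : Pt D) + 0) (Point.some x1 y1 h1 - 0) = D ^ 2 • _
    rw [add_zero, sub_zero]
    have a0 : ka (Point.zero : Pt D) = 1 / D := rfl
    have b0 : kb (Point.zero : Pt D) = 0 := rfl
    rw [a0, b0]
    ext i
    fin_cases i <;> simp [sy] <;> field_simp
    ring
  have E1 : y1 ^ 2 = x1 ^ 3 - D ^ 2 * x1 := (nonsingular_iff' hD _ _).mp h1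
  have E2 : y2 ^ 2 = x2 ^ 3 - D ^ 2 * x2 := (nonsingular_iff' hD _ _).mp h2
  have a1 : ka (Point.some x1 y1 h1 : Pt D) = x1 / D := rfl
  have b1 : kb (Point.some x1 y1 h1 : Pt D) = 1 := rfl
  have a2 : ka (Point.some x2 y2 h2 : Pt D) = x2 / D := rfl
  have b2 : kb (Point.some x2 y2 h2 : Pt D) = 1 := rfl
  rw [e0, a1, b1, a2, b2]
  by_cases hx : x1 = x2
  · subst hx
    -- reduce to `P = Q`
    have hyy : y2 = y1 ∨ y2 = -y1 := by
      have : (y2 - y1) * (y2 + y1) = 0 := by linarith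
      rcases mul_eq_zero.mp this with h | h
      · left; linarith
      · right; linarith
    by_cases hy : y1 = 0
    · have hy2 : y2 = 0 := by rcases hyy with h | h <;> simp [h, hy]
      subst hy; subst hy2
      have n0 : (W D).toAffine.negY x1 0 = 0 := by simp [WeierstrassCurve.Affine.negY]
      refine ⟨1 / (D ^ 2 * ((x1 / D) ^ 2 + 1) ^ 2), by positivity, ?_⟩
      have s1 : (Point.some x1 0 h1 : Pt D) + Point.some x1 0 h2 = 0 :=
        Point.add_of_Y_eq rfl n0.symm
      have s2 : (Point.some x1 0 h1 : Pt D) - Point.some x1 0 h2 = 0 := sub_self _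
      rw [s1, s2]
      have a0 : ka (0 : Pt D) = 1 / D := rfl
      have b0 : kb (0 : Pt D) = 0 := rfl
      have hxx : x1 ^ 3 - D ^ 2 * x1 = 0 := by rw [← E1]; ring
      ext i
      fin_cases i
      · simp only [sy, a0, b0, Fin.zero_eta, Matrix.cons_val_zero, Pi.smul_apply, smul_eq_mul]
        field_simp
      · simp only [sy, a0, b0, Fin.mk_one, Matrix.cons_val_one, Matrix.cons_val_zero,
          Pi.smul_apply, smul_eq_mul]
        field_simp
        linear_combination (-2 : ℚ) * hxx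
      · simp only [sy, a0, b0, Fin.reduceFinMk, Matrix.cons_val, Pi.smul_apply, smul_eq_mul]
        field_simp
        ring
    · -- doubling
      have nY : y1 ≠ (W D).toAffine.negY x1 y1 := by
        simp only [WeierstrassCurve.Affine.negY, W_a1, W_a3]
        intro h
        apply hy
        linarith
      have hdbl : (Point.some x1 y1 h1 : Pt D) + Point.some x1 y1 h1 = _ :=
        Point.add_self_of_Y_ne nY
      have hX : (W D).toAffine.addX x1 x1 ((W D).toAffine.slope x1 x1 y1 y1) / D =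
          ((x1 / D) ^ 2 + 1) ^ 2 / (4 * (x1 / D) * ((x1 / D) ^ 2 - 1)) := by
        rw [WeierstrassCurve.Affine.slope_of_Y_ne rfl nY]
        simp only [WeierstrassCurve.Affine.addX, WeierstrassCurve.Affine.negY, W_a1, W_a2, W_a3,
          W_a4]
        have hxne : x1 ^ 3 - D ^ 2 * x1 ≠ 0 := by rw [← E1]; exact pow_ne_zero _ hy
        have hx0 : x1 ≠ 0 := by rintro rfl; exact hxne (by ring)
        have hx1 : x1 ^ 2 - D ^ 2 ≠ 0 := by
          intro h; apply hxne
          linear_combination x1 * h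
        have e1 : (x1 / D) ^ 2 - 1 = (x1 ^ 2 - D ^ 2) / D ^ 2 := by field_simp
        rw [e1]
        have e2 : y1 - (-y1 - 0 * x1 - 0) = 2 * y1 := by ring
        rw [e2, div_pow, mul_pow, E1]
        have e3 : x1 ^ 3 - D ^ 2 * x1 = x1 * (x1 ^ 2 - D ^ 2) := by ring
        rw [e3]
        field_simp
        ring
      have hxne : x1 ^ 3 - D ^ 2 * x1 ≠ 0 := by rw [← E1]; exact pow_ne_zero _ hy
      have hx0 : x1 / D ≠ 0 := by
        refine div_ne_zero ?_ hD
        rintro rfl; exact hxne (by ring)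
      have hx1 : (x1 / D) ^ 2 - 1 ≠ 0 := by
        intro h; apply hxne
        have : x1 ^ 2 - D ^ 2 = 0 := by
          have := congrArg (· * D ^ 2) h
          field_simp at this
          linarith
        linear_combination x1 * this
      refine ⟨1 / (D * (4 * (x1 / D) * ((x1 / D) ^ 2 - 1))), by positivity, ?_⟩
      have key : ∀ R S : Pt D, R = (Point.some x1 y1 h1 : Pt D) + Point.some x1 y1 h1 → S = 0 →
          sy R S = (1 / (D * (4 * (x1 / D) * ((x1 / D) ^ 2 - 1)))) •
            ![(x1 / D * (x1 / D) + 1 * 1) ^ 2, 2 * (x1 / D * 1 + 1 * (x1 / D)) *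
              (x1 / D * (x1 / D) - 1 * 1), (x1 / D * 1 + 1 * (x1 / D)) ^ 2 -
                4 * (x1 / D * (x1 / D)) * (1 * 1)] := by
        intro R S hR hS
        rw [hR, hS, hdbl]
        have a0 : ka (0 : Pt D) = 1 / D := rfl
        have b0 : kb (0 : Pt D) = 0 := rfl
        have a3 : ∀ h, ka (Point.some ((W D).toAffine.addX x1 x1
            ((W D).toAffine.slope x1 x1 y1 y1)) ((W D).toAffine.addY x1 x1 y1
            ((W D).toAffine.slope x1 x1 y1 y1)) h : Pt D) =
            (W D).toAffine.addX x1 x1 ((W D).toAffine.slope x1 x1 y1 y1) / D := fun _ => rfl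
        have b3 : ∀ h, kb (Point.some ((W D).toAffine.addX x1 x1
            ((W D).toAffine.slope x1 x1 y1 y1)) ((W D).toAffine.addY x1 x1 y1
            ((W D).toAffine.slope x1 x1 y1 y1)) h : Pt D) = 1 := fun _ => rfl
        rw [sy, a0, b0, a3, b3, hX]
        set X := x1 / D
        ext i
        fin_cases i
        · simp only [Fin.zero_eta, Matrix.cons_val_zero, Pi.smul_apply, smul_eq_mul]
          field_simp
        · simp only [Fin.mk_one, Matrix.cons_val_one, Matrix.cons_val_zero, Pi.smul_apply,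
            smul_eq_mul]
          field_simp
          ring
        · simp only [Fin.reduceFinMk, Matrix.cons_val, Pi.smul_apply, smul_eq_mul]
          ring
      rcases hyy with h | h
      · subst h
        exact key _ _ rfl (sub_self _)
      · subst h
        have hneg : (Point.some x1 (-y1) h2 : Pt D) = -Point.some x1 y1 h1 := by
          rw [Point.neg_some]
          congr 1
          simp [WeierstrassCurve.Affine.negY]
        rw [hneg, sy_comm, sub_neg_eq_add, add_neg_cancel]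
        exact key _ _ rfl rfl
  · have hX12 : x1 / D ≠ x2 / D := by
      intro h
      apply hx
      field_simp at h
      exact h
    have hsub : x1 - x2 ≠ 0 := sub_ne_zero.mpr hx
    refine ⟨1 / (x1 / D - x2 / D) ^ 2, by
      have := sub_ne_zero.mpr hX12
      positivity, ?_⟩
    have hsum : (Point.some x1 y1 h1 : Pt D) + Point.some x2 y2 h2 = _ := Point.add_of_X_ne hx
    have hdif : (Point.some x1 y1 h1 : Pt D) - Point.some x2 y2 h2 = _ :=
      (sub_eq_add_neg _ _).trans ((congrArg _ (Point.neg_some h2)).trans (Point.add_of_X_ne hx))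
    rw [hsum, hdif]
    have sl1 : (W D).toAffine.slope x1 x2 y1 y2 = (y1 - y2) / (x1 - x2) :=
      WeierstrassCurve.Affine.slope_of_X_ne hx
    have sl2 : (W D).toAffine.slope x1 x2 y1 ((W D).toAffine.negY x2 y2) =
        (y1 + y2) / (x1 - x2) := by
      rw [WeierstrassCurve.Affine.slope_of_X_ne hx]
      simp [WeierstrassCurve.Affine.negY]
    have A1 : ∀ h, ka (Point.some ((W D).toAffine.addX x1 x2
        ((W D).toAffine.slope x1 x2 y1 y2)) ((W D).toAffine.addY x1 x2 y1
        ((W D).toAffine.slope x1 x2 y1 y2)) h : Pt D) =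
        (((y1 - y2) / (x1 - x2)) ^ 2 - x1 - x2) / D := by
      intro h
      change (W D).toAffine.addX x1 x2 ((W D).toAffine.slope x1 x2 y1 y2) / D = _
      rw [sl1]
      simp [WeierstrassCurve.Affine.addX]
    have A2 : ∀ h, ka (Point.some ((W D).toAffine.addX x1 x2
        ((W D).toAffine.slope x1 x2 y1 ((W D).toAffine.negY x2 y2))) ((W D).toAffine.addY x1 x2 y1
        ((W D).toAffine.slope x1 x2 y1 ((W D).toAffine.negY x2 y2))) h : Pt D) =
        (((y1 + y2) / (x1 - x2)) ^ 2 - x1 - x2) / D := by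
      intro h
      change (W D).toAffine.addX x1 x2 ((W D).toAffine.slope x1 x2 y1
        ((W D).toAffine.negY x2 y2)) / D = _
      rw [sl2]
      simp [WeierstrassCurve.Affine.addX]
    have B1 : ∀ h, kb (Point.some ((W D).toAffine.addX x1 x2
        ((W D).toAffine.slope x1 x2 y1 y2)) ((W D).toAffine.addY x1 x2 y1
        ((W D).toAffine.slope x1 x2 y1 y2)) h : Pt D) = 1 := fun _ => rfl
    have B2 : ∀ h, kb (Point.some ((W D).toAffine.addX x1 x2
        ((W D).toAffine.slope x1 x2 y1 ((W D).toAffine.negY x2 y2))) ((W D).toAffine.addY x1 x2 y1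
        ((W D).toAffine.slope x1 x2 y1 ((W D).toAffine.negY x2 y2))) h : Pt D) = 1 := fun _ => rfl
    rw [sy, A1, A2, B1, B2]
    have e1 : x1 / D - x2 / D = (x1 - x2) / D := by ring
    rw [e1]
    ext i
    fin_cases i
    · simp only [Fin.zero_eta, Matrix.cons_val_zero, Pi.smul_apply, smul_eq_mul]
      field_simp
      have : ((y1 - y2) ^ 2 - (x1 - x2) ^ 2 * x1 - (x1 - x2) ^ 2 * x2) *
          ((y1 + y2) ^ 2 - (x1 - x2) ^ 2 * x1 - (x1 - x2) ^ 2 * x2) =
            (x1 - x2) ^ 2 * (x1 * x2 + D ^ 2) ^ 2 := by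
        have l1 : ((y1 - y2) ^ 2 - (x1 - x2) ^ 2 * x1 - (x1 - x2) ^ 2 * x2) *
          ((y1 + y2) ^ 2 - (x1 - x2) ^ 2 * x1 - (x1 - x2) ^ 2 * x2) =
          (y1 ^ 2 - y2 ^ 2) ^ 2 - 2 * (y1 ^ 2 + y2 ^ 2) * ((x1 - x2) ^ 2 * (x1 + x2))
            + ((x1 - x2) ^ 2 * (x1 + x2)) ^ 2 := by ring
        rw [l1, E1, E2]; ring
      linear_combination this
    · simp only [Fin.mk_one, Matrix.cons_val_one, Matrix.cons_val_zero, Pi.smul_apply,
        smul_eq_mul]
      field_simp
      linear_combination (2 : ℚ) * E1 + 2 * E2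
    · simp only [Fin.reduceFinMk, Matrix.cons_val, Pi.smul_apply, smul_eq_mul]
      field_simp
      ring

/-- The approximate parallelogram law, with a constant independent of `D`. -/
theorem parallelogram : ∃ C : ℝ, ∀ D : ℚ, D ≠ 0 → ∀ P Q : Pt D,
    |hn (P + Q) + hn (P - Q) - 2 * hn P - 2 * hn Q| ≤ C := by
  obtain ⟨C1, hC1⟩ := abs_logHeight_addSubMap_sub_two_mul_logHeight_le (W 1)
  obtain ⟨C2, hC2⟩ := abs_logHeight_sym2_sub_le ℚ
  refine ⟨C1 + 3 * C2, fun D hD P Q => ?_⟩
  obtain ⟨c, hc, hs⟩ := sy_add_sub hD P Q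
  have i1 := hC1 (sy P Q)
  have i2 := hC2 (kab_ne hD P) (kab_ne hD Q)
  have i3 := hC2 (kab_ne hD (P + Q)) (kab_ne hD (P - Q))
  have i4 : logHeight (sy (P + Q) (P - Q)) =
      logHeight (fun i => (addSubMap (W 1) i).eval (sy P Q)) := by
    rw [hs, logHeight_smul_eq_logHeight _ hc]
  change |logHeight (sy P Q) - (hn P + hn Q)| ≤ C2 at i2
  change |logHeight (sy (P + Q) (P - Q)) - (hn (P + Q) + hn (P - Q))| ≤ C2 at i3
  rw [i4] at i3
  rw [abs_le] at *
  constructor <;> linarith [i1.1, i1.2, i2.1, i2.2, i3.1, i3.2]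

end Pool.Agent.RB
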