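import Pool.Agent.Lib_helper21.RB.Gram
import Pool.Agent.Lib_helper21.RB.EC

/-!
# The height pairing of finitely many points
-/

namespace Pool.Agent.RB

open Module Set Function WeierstrassCurve.Affine

variable {G : Type*} [AddCommGroup G]

/-- If `h` is nonnegative and satisfies the approximate parallelogram law, finitely many elements
become vectors of a Euclidean space whose dimension is at most the rank. -/
theorem height_vectors (h : G → ℝ) (C : ℝ) (h0 : ∀ P, 0 ≤ h P)
    (hpar : ∀ P Q : G, |h (P + Q) + h (P - Q) - 2 * h P - 2 * h Q| ≤ C)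
    {ι : Type*} [Fintype ι] (P : ι → G) :
    ∃ (n : ℕ) (w : Fin n → G) (v : ι → EuclideanSpace ℝ (Fin n)), LinearIndependent ℤ w ∧
      ∀ m : ι → ℤ, |‖∑ i, (m i : ℝ) • v i‖ ^ 2 - h (∑ i, m i • P i)| ≤ C / 2 := by
  classical
  obtain ⟨q, hq, hqh⟩ := exists_quadratic h C hpar
  obtain ⟨B, hB, hB2⟩ := exists_bilin q hq
  have hs : ∀ P Q, B P Q = B Q P := by
    intro P Q
    rw [hB2, hB2, add_comm P Q]; ring
  have hmul : ∀ (n : ℕ) (P : G), B (n • P) (n • P) = (n : ℝ) ^ 2 * B P P := by
    intro n P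
    rw [map_nsmul B, AddMonoidHom.nsmul_apply, map_nsmul]
    simp only [nsmul_eq_mul]
    ring
  have hBn : ∀ P, 0 ≤ B P P := by
    intro P
    by_contra hneg
    push Not at hneg
    -- `n² B(P,P) ≥ -C/2` for all `n`
    obtain ⟨n, hn⟩ := exists_nat_gt (C / 2 / (-B P P))
    have h1 := hqh ((n + 1) • P)
    rw [← hB, hmul] at h1
    have h2 := (abs_le.mp h1).1
    have h3 := h0 ((n + 1) • P)
    rw [div_lt_iff₀ (by linarith)] at hn
    have h4 : (n : ℝ) ≤ ((n + 1 : ℕ) : ℝ) ^ 2 := by push_cast; nlinarith [(n.cast_nonneg : (0:ℝ) ≤ n)]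
    nlinarith
  obtain ⟨u, hu⟩ := gram B hBn hs P
  let V := Submodule.span ℝ (range u)
  let b := stdOrthonormalBasis ℝ V
  obtain ⟨f, hf1, -, hf3⟩ := Submodule.exists_fun_fin_finrank_span_eq ℝ (range u)
  choose s hs' using hf1
  obtain ⟨t, ht⟩ : ∃ t : ι → V, ∀ i, (t i : EuclideanSpace ℝ ι) = u i :=
    ⟨fun i => ⟨u i, Submodule.subset_span ⟨i, rfl⟩⟩, fun _ => rfl⟩
  refine ⟨finrank ℝ V, fun i => P (s i), fun i => b.repr (t i), ?_, ?_⟩
  · -- independence
    rw [Fintype.linearIndependent_iff]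
    intro m hm
    have e1 : ‖∑ i, (m i : ℝ) • f i‖ ^ 2 = 0 := by
      -- transfer to the index set `ι`
      let M : ι → ℤ := fun j => ∑ i, if s i = j then m i else 0
      have e2 := hu M
      have e3 : ∑ j, (M j : ℝ) • u j = ∑ i, (m i : ℝ) • f i := by
        simp only [M, Int.cast_sum, Finset.sum_smul]
        rw [Finset.sum_comm]
        refine Finset.sum_congr rfl fun i _ => ?_
        rw [Finset.sum_eq_single (s i)]
        · simp [hs' i]
        · intro j _ hj
          simp [Ne.symm hj]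
        · simp
      have e4 : ∑ j, M j • P j = ∑ i, m i • P (s i) := by
        simp only [M, Finset.sum_smul]
        rw [Finset.sum_comm]
        refine Finset.sum_congr rfl fun i _ => ?_
        rw [Finset.sum_eq_single (s i)]
        · simp
        · intro j _ hj
          simp [Ne.symm hj]
        · simp
      rw [e3, e4, hm] at e2
      rw [e2]; simp
    have e5 : ∑ i, (m i : ℝ) • f i = 0 := by
      have := pow_eq_zero_iff (two_ne_zero) |>.mp e1
      exact norm_eq_zero.mp this
    have e6 := Fintype.linearIndependent_iff.mp hf3 (fun i => (m i : ℝ)) e5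
    intro i
    exact_mod_cast e6 i
  · intro m
    have e1 : ∑ i, (m i : ℝ) • b.repr (t i) = b.repr (∑ i, (m i : ℝ) • t i) := by
      rw [map_sum]
      refine Finset.sum_congr rfl fun i _ => ?_
      rw [map_smul]
    rw [e1, LinearIsometryEquiv.norm_map]
    have e2 : ‖∑ i, (m i : ℝ) • t i‖ = ‖∑ i, (m i : ℝ) • u i‖ := by
      rw [← Submodule.norm_coe, Submodule.coe_sum]
      congr 1
      refine Finset.sum_congr rfl fun i _ => ?_
      rw [Submodule.coe_smul, ht]
    rw [e2, hu, hB]
    exact hqh _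

lemma hn_nonneg {D : ℚ} (P : Pt D) : 0 ≤ hn P := Height.logHeight_nonneg _

end Pool.Agent.RB
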