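import Mathlib

/-!
# Rankin's bound for spherical codes
-/

namespace Pool.Agent.RB

open MeasureTheory Module Metric Set Function
open scoped ENNReal RealInnerProductSpace

variable {E : Type*} [NormedAddCommGroup E] [InnerProductSpace ℝ E]

/-- Blichfeldt's inequality: few separated points lie in a small ball. -/
lemma blichfeldt {ι : Type*} (T : Finset ι) (u : ι → E) (x : E) {σ τ : ℝ}
    (hu : ∀ i ∈ T, ∀ j ∈ T, i ≠ j → σ ≤ ‖u i - u j‖ ^ 2) (hx : ∀ i ∈ T, ‖u i - x‖ ^ 2 ≤ τ) :
    ((T.card : ℝ) - 1) * σ * T.card ≤ 2 * T.card ^ 2 * τ := by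
  classical
  have h1 : ∑ i ∈ T, ∑ j ∈ T, ‖u i - u j‖ ^ 2 =
      2 * T.card * ∑ i ∈ T, ‖u i - x‖ ^ 2 - 2 * ‖∑ i ∈ T, (u i - x)‖ ^ 2 := by
    have e : ∀ i j, ‖u i - u j‖ ^ 2 =
        ‖u i - x‖ ^ 2 + ‖u j - x‖ ^ 2 - 2 * ⟪u i - x, u j - x⟫ := by
      intro i j
      have : u i - u j = (u i - x) - (u j - x) := by abel
      rw [this, norm_sub_sq_real]; ring
    have e2 : ‖∑ i ∈ T, (u i - x)‖ ^ 2 = ∑ i ∈ T, ∑ j ∈ T, ⟪u i - x, u j - x⟫ := by
      rw [← real_inner_self_eq_norm_sq, sum_inner]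
      refine Finset.sum_congr rfl fun i _ => ?_
      rw [inner_sum]
    rw [e2]
    simp_rw [e]
    simp only [Finset.sum_sub_distrib, Finset.sum_add_distrib, Finset.sum_const, nsmul_eq_mul,
      ← Finset.mul_sum]
    ring
  have h2 : ((T.card : ℝ) - 1) * σ * T.card ≤ ∑ i ∈ T, ∑ j ∈ T, ‖u i - u j‖ ^ 2 := by
    calc ((T.card : ℝ) - 1) * σ * T.card = ∑ i ∈ T, ((T.card : ℝ) - 1) * σ := by
          rw [Finset.sum_const, nsmul_eq_mul]; ring
      _ ≤ ∑ i ∈ T, ∑ j ∈ T, ‖u i - u j‖ ^ 2 := by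
          apply Finset.sum_le_sum
          intro i hi
          rw [← Finset.add_sum_erase T _ hi]
          have : ((T.card : ℝ) - 1) * σ = ∑ j ∈ T.erase i, σ := by
            rw [Finset.sum_const, nsmul_eq_mul, Finset.card_erase_of_mem hi,
              Nat.cast_sub (Finset.card_pos.mpr ⟨i, hi⟩)]
            simp
          rw [this, sub_self, norm_zero]
          have : ∑ j ∈ T.erase i, σ ≤ ∑ j ∈ T.erase i, ‖u i - u j‖ ^ 2 := by
            apply Finset.sum_le_sum
            intro j hj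
            exact hu i hi j (Finset.mem_of_mem_erase hj) (Finset.ne_of_mem_erase hj).symm
          linarith
  have h3 : ∑ i ∈ T, ‖u i - x‖ ^ 2 ≤ T.card * τ := by
    calc _ ≤ ∑ i ∈ T, τ := Finset.sum_le_sum hx
      _ = _ := by rw [Finset.sum_const, nsmul_eq_mul]
  rw [h1] at h2
  have h4 : 0 ≤ ‖∑ i ∈ T, (u i - x)‖ ^ 2 := by positivity
  have h5 : 2 * (T.card : ℝ) * ∑ i ∈ T, ‖u i - x‖ ^ 2 ≤ 2 * T.card * (T.card * τ) := by gcongr
  nlinarith

/-- The linear map `w ↦ b w + (η - b) ⟨u, w⟩ u`. -/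
noncomputable def squash (u : E) (b η : ℝ) : E →ₗ[ℝ] E :=
  b • LinearMap.transvection (innerₛₗ ℝ u) ((η / b - 1) • u)

lemma squash_apply (u : E) {b : ℝ} (hb : b ≠ 0) (η : ℝ) (w : E) :
    squash u b η w = b • w + ((η - b) * ⟪u, w⟫) • u := by
  simp only [squash, LinearMap.smul_apply, LinearMap.transvection.apply, innerₛₗ_apply_apply,
    smul_add, smul_smul]
  congr 2
  field_simp

lemma squash_det [FiniteDimensional ℝ E] (u : E) (hu : ‖u‖ = 1) {b η : ℝ} (hb : 0 < b)
    (hη : 0 < η) : LinearMap.det (squash u b η) = b ^ finrank ℝ E * (η / b) := by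
  rw [squash, LinearMap.det_smul, LinearMap.transvection.det]
  congr 1
  simp only [innerₛₗ_apply_apply, inner_smul_right, real_inner_self_eq_norm_sq, hu]
  ring

lemma squash_norm (u : E) (hu : ‖u‖ = 1) {b η c : ℝ} (hb : 0 < b) (hη : 0 < η) (hηb : η ≤ b)
    (hc : 0 ≤ c) (hc1 : c ≤ 1) (w : E) (hw : ‖w‖ ≤ 1) :
    ‖c • u + squash u b η w‖ ^ 2 ≤ c ^ 2 + 2 * c * η + b ^ 2 ∧
    ‖u - (c • u + squash u b η w)‖ ^ 2 ≤ (1 - c) ^ 2 + 2 * (1 - c) * η + b ^ 2 := by
  have huu : ⟪u, u⟫ = 1 := by rw [real_inner_self_eq_norm_sq, hu]; norm_num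
  set a := ⟪u, w⟫ with ha
  have hsq := squash_apply u hb.ne' η w
  have ha1 : |a| ≤ 1 := by
    calc |a| ≤ ‖u‖ * ‖w‖ := abs_real_inner_le_norm u w
      _ ≤ 1 := by rw [hu, one_mul]; exact hw
  have ha1' := abs_le.mp ha1
  have hww : ‖w‖ ^ 2 ≤ 1 := by nlinarith [norm_nonneg w]
  have e1 : ⟪u, squash u b η w⟫ = η * a := by
    rw [hsq, inner_add_right, inner_smul_right, inner_smul_right, huu, ← ha]; ring
  have hwu : ⟪w, u⟫ = a := (real_inner_comm u w)
  have e2 : ‖squash u b η w‖ ^ 2 = b ^ 2 * ‖w‖ ^ 2 + (η ^ 2 - b ^ 2) * a ^ 2 := by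
    rw [hsq, norm_add_sq_real, norm_smul, norm_smul, hu, real_inner_smul_left,
      real_inner_smul_right, hwu, ← ha]
    simp only [Real.norm_eq_abs, mul_pow, sq_abs, mul_one]
    ring
  have hneg : (η ^ 2 - b ^ 2) * a ^ 2 ≤ 0 := by
    apply mul_nonpos_of_nonpos_of_nonneg
    · nlinarith
    · positivity
  have hbw : b ^ 2 * ‖w‖ ^ 2 ≤ b ^ 2 := by nlinarith [sq_nonneg b]
  constructor
  · rw [norm_add_sq_real, norm_smul, hu, inner_smul_left, e1, e2]
    simp only [Real.norm_eq_abs, mul_one, sq_abs, conj_trivial]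
    have : c * (η * a) ≤ c * η := by
      have : c * (η * a) = (c * η) * a := by ring
      rw [this]
      nlinarith [mul_nonneg hc hη.le]
    linarith
  · have e3 : u - (c • u + squash u b η w) = (1 - c) • u - squash u b η w := by
      rw [sub_smul, one_smul]; abel
    rw [e3, norm_sub_sq_real, norm_smul, hu, inner_smul_left, e1, e2]
    simp only [Real.norm_eq_abs, mul_one, sq_abs, conj_trivial]
    have : -((1 - c) * (η * a)) ≤ (1 - c) * η := by
      have e4 : -((1 - c) * (η * a)) = ((1 - c) * η) * (-a) := by ring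
      rw [e4]
      nlinarith [mul_nonneg (by linarith : 0 ≤ 1 - c) hη.le]
    linarith

/-- **Rankin's bound**: unit vectors at squared distance at least `3/4 - 1/10000`. -/
theorem rankin [FiniteDimensional ℝ E] {ι : Type*} [Fintype ι] (u : ι → E)
    (hu : ∀ i, ‖u i‖ = 1) (h : ∀ i j, i ≠ j → 0.7499 ≤ ‖u i - u j‖ ^ 2) :
    (Fintype.card ι : ℝ) ≤ 20000 * (5 / 3) ^ finrank ℝ E := by
  classical
  borelize E
  let μ : Measure E := Measure.addHaar
  set n := finrank ℝ E
  -- the sets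
  let t : ℝ := 0.792
  let c : ℝ := 0.627
  let b : ℝ := 0.4752
  let η : ℝ := 0.005
  let S : ι → Set E := fun i => closedBall (0 : E) t ∩ closedBall (u i) 0.61
  have hS : ∀ i, MeasurableSet (S i) := fun i =>
    measurableSet_closedBall.inter measurableSet_closedBall
  have hlow : ∀ i, ENNReal.ofReal (b ^ n * (η / b)) * μ (closedBall 0 1) ≤ μ (S i) := by
    intro i
    have hb : (0 : ℝ) < b := by norm_num [b]
    have hη : (0 : ℝ) < η := by norm_num [η]
    have hd := squash_det (u i) (hu i) hb hη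
    have hpos : 0 < b ^ n * (η / b) := by positivity
    have h1 : μ (squash (u i) b η '' closedBall 0 1) =
        ENNReal.ofReal (b ^ n * (η / b)) * μ (closedBall 0 1) := by
      rw [Measure.addHaar_image_linearMap, hd, abs_of_pos hpos]
    rw [← h1, ← measure_preimage_add μ (-(c • u i))]
    apply measure_mono
    intro x hx
    obtain ⟨w, hw, hwx⟩ := hx
    have hw1 : ‖w‖ ≤ 1 := by simpa using hw
    have hwx' : squash (u i) b η w = -(c • u i) + x := hwx
    have hx2 : x = c • u i + squash (u i) b η w := by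
      rw [hwx', add_neg_cancel_left]
    obtain ⟨g1, g2⟩ := squash_norm (u i) (hu i) hb hη (by norm_num [b, η])
      (by norm_num [c] : 0 ≤ c) (by norm_num [c]) w hw1
    rw [← hx2] at g1 g2
    refine ⟨?_, ?_⟩
    · rw [mem_closedBall_zero_iff]
      have : ‖x‖ ^ 2 ≤ t ^ 2 := by
        refine g1.trans ?_
        norm_num [b, c, η, t]
      exact le_of_sq_le_sq this (by norm_num [t])
    · rw [mem_closedBall, dist_comm, dist_eq_norm]
      have : ‖u i - x‖ ^ 2 ≤ 0.61 ^ 2 := by
        refine g2.trans ?_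
        norm_num [b, c, η]
      exact le_of_sq_le_sq this (by norm_num)
  have hmult : ∀ x : E, ∑ i, (S i).indicator (fun _ => (1 : ℝ≥0∞)) x ≤
      (closedBall (0 : E) t).indicator (fun _ => (140 : ℝ≥0∞)) x := by
    intro x
    by_cases hx : x ∈ closedBall (0 : E) t
    · rw [indicator_of_mem hx]
      let T : Finset ι := Finset.univ.filter (fun i => x ∈ closedBall (u i) 0.61)
      have h1 : ∑ i, (S i).indicator (fun _ => (1 : ℝ≥0∞)) x = (T.card : ℝ≥0∞) := by
        rw [Finset.card_filter]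
        push_cast
        refine Finset.sum_congr rfl fun i _ => ?_
        by_cases hi : x ∈ closedBall (u i) 0.61
        · rw [indicator_of_mem (show x ∈ S i from ⟨hx, hi⟩), if_pos hi]
        · rw [indicator_of_notMem (show x ∉ S i from fun h => hi h.2), if_neg hi]
      have h2 := blichfeldt T u x (σ := 0.7499) (τ := 0.61 ^ 2)
        (fun i _ j _ hij => h i j hij) (fun i hi => by
          have := (Finset.mem_filter.mp hi).2
          rw [mem_closedBall, dist_comm, dist_eq_norm] at this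
          exact pow_le_pow_left₀ (norm_nonneg _) this 2)
      have h3 : T.card ≤ 140 := by
        by_contra hcon
        push Not at hcon
        have h4 : (140 : ℝ) < T.card := by exact_mod_cast hcon
        nlinarith
      rw [h1]
      exact_mod_cast h3
    · rw [indicator_of_notMem hx]
      apply le_of_eq
      apply Finset.sum_eq_zero
      intro i _
      exact indicator_of_notMem (fun h => hx h.1) _
  have hsum : (Fintype.card ι : ℝ≥0∞) * (ENNReal.ofReal (b ^ n * (η / b)) * μ (closedBall 0 1)) ≤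
      140 * μ (closedBall 0 t) := by
    calc (Fintype.card ι : ℝ≥0∞) * (ENNReal.ofReal (b ^ n * (η / b)) * μ (closedBall 0 1))
        = ∑ i : ι, ENNReal.ofReal (b ^ n * (η / b)) * μ (closedBall 0 1) := by
          rw [Finset.sum_const, Finset.card_univ, nsmul_eq_mul]
      _ ≤ ∑ i : ι, μ (S i) := Finset.sum_le_sum fun i _ => hlow i
      _ = ∑ i : ι, ∫⁻ x, (S i).indicator (fun _ => (1 : ℝ≥0∞)) x ∂μ := by
          refine Finset.sum_congr rfl fun i _ => ?_
          rw [lintegral_indicator_const (hS i), one_mul]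
      _ = ∫⁻ x, ∑ i : ι, (S i).indicator (fun _ => (1 : ℝ≥0∞)) x ∂μ := by
          rw [lintegral_finsetSum]
          intro i _
          exact measurable_const.indicator (hS i)
      _ ≤ ∫⁻ x, (closedBall (0 : E) t).indicator (fun _ => (140 : ℝ≥0∞)) x ∂μ :=
          lintegral_mono hmult
      _ = 140 * μ (closedBall 0 t) := by
          rw [lintegral_indicator_const measurableSet_closedBall]
  have ht : (0 : ℝ) ≤ t := by norm_num [t]
  rw [μ.addHaar_closedBall 0 ht, ← mul_assoc, ← mul_assoc] at hsum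
  have hball : μ (closedBall (0 : E) 1) = μ (ball 0 1) := by
    rw [μ.addHaar_closedBall 0 zero_le_one]; simp
  rw [hball] at hsum
  have J : (Fintype.card ι : ℝ≥0∞) * ENNReal.ofReal (b ^ n * (η / b)) ≤
      140 * ENNReal.ofReal (t ^ n) :=
    (ENNReal.mul_le_mul_iff_left (measure_ball_pos _ _ zero_lt_one).ne' measure_ball_lt_top.ne).1
      hsum
  have hb : (0 : ℝ) < b := by norm_num [b]
  have hη : (0 : ℝ) < η := by norm_num [η]
  have hpos : 0 < b ^ n * (η / b) := by positivity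
  have e140 : (140 : ℝ≥0∞) * ENNReal.ofReal (t ^ n) = ENNReal.ofReal (140 * t ^ n) := by
    rw [ENNReal.ofReal_mul (by norm_num)]
    congr 1
    norm_num
  rw [e140] at J
  have K := ENNReal.toReal_le_of_le_ofReal (by positivity) J
  rw [ENNReal.toReal_mul, ENNReal.toReal_ofReal hpos.le, ENNReal.toReal_natCast] at K
  have e2 : t = 5 / 3 * b := by norm_num [t, b]
  rw [e2, mul_pow] at K
  have hbn : 0 < b ^ n := by positivity
  have e3 : η / b ≥ 0.01 := by norm_num [η, b]
  have K2 : (Fintype.card ι : ℝ) * (η / b) ≤ 140 * (5 / 3) ^ n := by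
    have : (Fintype.card ι : ℝ) * (b ^ n * (η / b)) = b ^ n * ((Fintype.card ι : ℝ) * (η / b)) := by
      ring
    rw [this] at K
    have e4 : 140 * ((5 / 3) ^ n * b ^ n) = b ^ n * (140 * (5 / 3 : ℝ) ^ n) := by ring
    rw [e4] at K
    exact le_of_mul_le_mul_left K hbn
  have hc0 : (0 : ℝ) ≤ (Fintype.card ι : ℝ) := Nat.cast_nonneg _
  have hp0 : (0 : ℝ) < (5 / 3) ^ n := by positivity
  nlinarith

end Pool.Agent.RB
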