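import Pool.Agent.Lib_helper21.RB.Main
import Pool.Agent.Lib_helper21.RB.Rankin

/-!
# Differences of two fourth powers and the rank of `y² = x³ - D² x`, second part
-/

namespace Pool.Agent.RB

open Module
open scoped RealInnerProductSpace

/-- Normalisation of two vectors. -/
lemma normalise {E : Type*} [NormedAddCommGroup E] [InnerProductSpace ℝ E] {x y : E} {β σ s : ℝ}
    (hβ : 0 < β) (hσ : 0 ≤ σ) (hx : (1 - σ) * β ≤ ‖x‖) (hx' : ‖x‖ ≤ β)
    (hy : (1 - σ) * β ≤ ‖y‖) (hy' : ‖y‖ ≤ β) (hx0 : 0 < ‖x‖) (hy0 : 0 < ‖y‖)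
    (h : s ≤ ‖x - y‖ ^ 2) (hs : σ * β ^ 2 ≤ s) :
    σ ≤ ‖‖x‖⁻¹ • x - ‖y‖⁻¹ • y‖ ^ 2 := by
  have e1 : ‖‖x‖⁻¹ • x - ‖y‖⁻¹ • y‖ ^ 2 * (‖x‖ * ‖y‖) = ‖x - y‖ ^ 2 - (‖x‖ - ‖y‖) ^ 2 := by
    rw [norm_sub_sq_real, norm_sub_sq_real, norm_smul, norm_smul, real_inner_smul_left,
      real_inner_smul_right, norm_inv, norm_inv, norm_norm, norm_norm]
    field_simp
    ring
  have hmain : ∀ p q : ℝ, (1 - σ) * β ≤ p → p ≤ q → q ≤ β → 0 < p →
      (p - q) ^ 2 + σ * (p * q) ≤ σ * β ^ 2 := by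
    intro p q h1 h2 h3 h4
    have h5 : (p - q) ^ 2 + σ * (p * q) ≤ (β - p) ^ 2 + σ * (p * β) := by
      have : (q - p) ^ 2 ≤ (β - p) ^ 2 := pow_le_pow_left₀ (by linarith) (by linarith) 2
      have h6 : σ * (p * q) ≤ σ * (p * β) := by gcongr
      nlinarith
    have h7 : (β - p) ^ 2 + σ * (p * β) ≤ σ * β ^ 2 := by
      have : (β - p) * (β - p - σ * β) ≤ 0 :=
        mul_nonpos_of_nonneg_of_nonpos (by linarith) (by linarith)
      nlinarith
    linarith
  have h8 : (‖x‖ - ‖y‖) ^ 2 + σ * (‖x‖ * ‖y‖) ≤ σ * β ^ 2 := by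
    rcases le_total ‖x‖ ‖y‖ with hxy | hxy
    · exact hmain _ _ hx hxy hy' hx0
    · have := hmain _ _ hy hxy hx' hy0
      nlinarith
  have h9 : σ * (‖x‖ * ‖y‖) ≤ ‖‖x‖⁻¹ • x - ‖y‖⁻¹ • y‖ ^ 2 * (‖x‖ * ‖y‖) := by
    rw [e1]; linarith
  exact le_of_mul_le_mul_right h9 (by positivity)

/-- Coprime solutions, all `r`. -/
theorem coprime_bound' : ∃ C : ℝ, ∀ D w : ℕ, 0 < D → 0 < w →
    ∃ (n : ℕ) (P : Fin n → Pt (D : ℚ)), LinearIndependent ℤ P ∧
      ((primSol (D * w ^ 2)).ncard : ℝ) ≤ C * (5 / 3) ^ n := by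
  classical
  obtain ⟨C, hC⟩ := parallelogram
  have hC0 : 0 ≤ C := (abs_nonneg _).trans (hC 1 one_ne_zero 0 0)
  obtain ⟨r₀, hr₀⟩ := exists_nat_gt (Real.exp (200000 * (C / 2 + 1)))
  refine ⟨max 10000 (((r₀ : ℝ) + 1) ^ 2), fun D w hD hw => ?_⟩
  have hrpos : 0 < D * w ^ 2 := by positivity
  obtain ⟨hfin, hcard0⟩ := finite_of_subset hrpos (S := primSol (D * w ^ 2))
    (fun p hp => hp.2.2.2)
  by_cases hsmall : D * w ^ 2 ≤ r₀
  · refine ⟨0, Fin.elim0, linearIndependent_empty_type, ?_⟩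
    rw [pow_zero, mul_one]
    refine le_trans ?_ (le_max_right _ _)
    calc ((primSol (D * w ^ 2)).ncard : ℝ) ≤ (((D * w ^ 2 + 1) ^ 2 : ℕ) : ℝ) := by
          exact_mod_cast hcard0
      _ ≤ ((r₀ : ℝ) + 1) ^ 2 := by
          push_cast
          have : ((D * w ^ 2 : ℕ) : ℝ) ≤ r₀ := by exact_mod_cast hsmall
          push_cast at this
          gcongr
  push Not at hsmall
  have hrexp : Real.exp (200000 * (C / 2 + 1)) < ((D * w ^ 2 : ℕ) : ℝ) :=
    hr₀.trans (by exact_mod_cast hsmall)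
  set L := Real.log ((D * w ^ 2 : ℕ) : ℝ) with hL
  have hLb : 200000 * (C / 2 + 1) ≤ L := by
    rw [hL, Real.le_log_iff_exp_le (by exact_mod_cast hrpos)]
    exact hrexp.le
  let ι := hfin.toFinset
  have hsol : ∀ p : ι, IsSol D p.1.1 p.1.2 w := by
    intro p
    have hp := hfin.mem_toFinset.mp p.2
    exact ⟨hD, hp.1, hp.2.1, hw, hp.2.2.1, hp.2.2.2⟩
  have hDq : (D : ℚ) ≠ 0 := by positivity
  obtain ⟨n, P, v, hP, v1, v2, v3⟩ := height_vectors' (G := Pt (D : ℚ)) hn C hn_nonneg (hC D hDq)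
    (fun p : ι => (hsol p).pt)
  refine ⟨n, P, hP, ?_⟩
  have hlog : Real.log 2 ≤ 1 := by
    have := Real.log_two_lt_d9
    linarith
  have hlog0 : 0 ≤ Real.log 2 := Real.log_nonneg (by norm_num)
  set β := √(2 / 3 * L + C / 2) with hβd
  have hβ2 : β ^ 2 = 2 / 3 * L + C / 2 := Real.sq_sqrt (by linarith)
  have hβ : 0 < β := Real.sqrt_pos.mpr (by linarith)
  have hnorm : ∀ i, ‖v i‖ ≤ β := by
    intro i
    apply Real.le_sqrt_of_sq_le
    have h1 := (abs_le.mp (v1 i)).2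
    have h2 := (hsol i).hn_le
    linarith
  have hnorm2 : ∀ i, (1 - 0.7499) * β ≤ ‖v i‖ := by
    intro i
    apply le_of_sq_le_sq _ (norm_nonneg _)
    have h1 := (abs_le.mp (v1 i)).1
    have h2 := (hsol i).le_hn
    rw [mul_pow, hβ2]
    norm_num
    linarith
  have hpos : ∀ i, 0 < ‖v i‖ := by
    intro i
    refine lt_of_lt_of_le ?_ (hnorm2 i)
    norm_num
    exact hβ
  have hs : 0.7499 * β ^ 2 ≤ 1 / 2 * L - Real.log 2 - C / 2 := by
    rw [hβ2]; norm_num; linarith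
  have hgcd : ∀ i j : ι, i ≠ j → 1 / 2 * L - Real.log 2 - C / 2 ≤ ‖v i + v j‖ ^ 2 ∧
      1 / 2 * L - Real.log 2 - C / 2 ≤ ‖v i - v j‖ ^ 2 := by
    intro i j hij
    have hne : (i.1.1, i.1.2) ≠ (j.1.1, j.1.2) := fun h => hij (Subtype.ext h)
    have := repulsion (hsol i) (hsol j) hne
    rw [Nat.gcd_self] at this
    have h1 := (abs_le.mp (v2 i j)).1
    have h2 := (abs_le.mp (v3 i j)).1
    constructor
    · have := this.1
      linarith
    · have := this.2
      linarith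
  let u : ι → EuclideanSpace ℝ (Fin n) := fun i => ‖v i‖⁻¹ • v i
  have hu : ∀ i, ‖u i‖ = 1 := by
    intro i
    simp only [u]
    rw [norm_smul, norm_inv, norm_norm, inv_mul_cancel₀ (hpos i).ne']
  have hsep : ∀ i j, i ≠ j → 0.7499 ≤ ‖u i - u j‖ ^ 2 := by
    intro i j hij
    exact normalise hβ (by norm_num) (hnorm2 i) (hnorm i) (hnorm2 j) (hnorm j) (hpos i) (hpos j)
      (hgcd i j hij).2 hs
  have hp := rankin u hu hsep
  have hneg : ∀ i j, i ≠ j → 0.7499 ≤ ‖u i + u j‖ ^ 2 := by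
    intro i j hij
    have := normalise (x := v i) (y := -v j) hβ (by norm_num : (0:ℝ) ≤ 0.7499) (hnorm2 i) (hnorm i)
      (by rw [norm_neg]; exact hnorm2 j) (by rw [norm_neg]; exact hnorm j) (hpos i)
      (by rw [norm_neg]; exact hpos j) (by rw [sub_neg_eq_add]; exact (hgcd i j hij).1) hs
    rw [norm_neg, smul_neg, sub_neg_eq_add] at this
    exact this
  -- all the `± u i`
  let f : ι × Bool → EuclideanSpace ℝ (Fin n) := fun q => if q.2 then u q.1 else -u q.1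
  have hf : ∀ q, ‖f q‖ = 1 := by
    rintro ⟨i, b⟩
    cases b <;> simp [f, hu i]
  have hfs : ∀ q q', q ≠ q' → 0.7499 ≤ ‖f q - f q'‖ ^ 2 := by
    rintro ⟨i, b⟩ ⟨j, b'⟩ hq
    by_cases hij : i = j
    · subst hij
      have hb : b ≠ b' := fun h => hq (by rw [h])
      have : ‖f (i, b) - f (i, b')‖ = 2 * ‖u i‖ := by
        cases b <;> cases b'
        · exact absurd rfl hb
        · have e : f (i, false) - f (i, true) = (-2 : ℝ) • u i := by
            simp only [f, Bool.false_eq_true, if_false, if_true]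
            rw [neg_smul, two_smul]; abel
          rw [e, norm_smul]; norm_num
        · have e : f (i, true) - f (i, false) = (2 : ℝ) • u i := by
            simp only [f, Bool.false_eq_true, if_false, if_true]
            rw [two_smul]; abel
          rw [e, norm_smul]; norm_num
        · exact absurd rfl hb
      rw [this, hu]
      norm_num
    · cases b <;> cases b'
      · have : f (i, false) - f (j, false) = -(u i - u j) := by simp [f]; abel
        rw [this, norm_neg]; exact hsep i j hij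
      · have : f (i, false) - f (j, true) = -(u i + u j) := by simp [f]; abel
        rw [this, norm_neg]; exact hneg i j hij
      · have : f (i, true) - f (j, false) = u i + u j := by simp [f]
        rw [this]; exact hneg i j hij
      · have : f (i, true) - f (j, true) = u i - u j := by simp [f]
        rw [this]; exact hsep i j hij
  have hp2 := rankin f hf hfs
  rw [finrank_euclideanSpace_fin] at hp2
  have hcard : (Fintype.card (ι × Bool) : ℝ) = 2 * ((primSol (D * w ^ 2)).ncard : ℝ) := by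
    rw [Fintype.card_prod, Fintype.card_bool, Fintype.card_coe, Set.ncard_eq_toFinset_card _ hfin]
    push_cast; ring
  rw [hcard] at hp2
  calc ((primSol (D * w ^ 2)).ncard : ℝ) ≤ 10000 * (5 / 3) ^ n := by linarith
    _ ≤ _ := by
      gcongr
      exact le_max_left _ _

/-- Rank at most one: at most one coprime solution. -/
theorem rank_one : ∃ r₀ : ℕ, ∀ D w : ℕ, 0 < D → r₀ ≤ D * w ^ 2 →
    (∀ P : Fin 2 → Pt (D : ℚ), ¬ LinearIndependent ℤ P) → (primSol (D * w ^ 2)).ncard ≤ 1 := by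
  obtain ⟨r₀, h⟩ := coprime_bound
  refine ⟨r₀, fun D w hD hr h2 => ?_⟩
  obtain ⟨n, P, hP, hn⟩ := h D w hD hr
  have hn1 : n ≤ 1 := by
    by_contra hcon
    push Not at hcon
    exact h2 (P ∘ Fin.castLE hcon) (hP.comp _ (Fin.castLE_injective hcon))
  have h3 : (10 / 3 : ℝ) ^ n ≤ (10 / 3) ^ 1 := pow_le_pow_right₀ (by norm_num) hn1
  have h4 : ((primSol (D * w ^ 2)).ncard : ℝ) < 2 := by
    rw [pow_one] at h3
    linarith
  have h5 : (primSol (D * w ^ 2)).ncard < 2 := by exact_mod_cast h4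
  omega

/-- The pairs of positive integers `(x, y)` with `x⁴ - y⁴ = r` whose primitive part is at most
`k ^ K`. -/
def smallSol (K : ℝ) (k r : ℕ) : Set (ℕ × ℕ) :=
  {p | 0 < p.1 ∧ 0 < p.2 ∧ p.1 ^ 4 = p.2 ^ 4 + r ∧
    (r : ℝ) ≤ (k : ℝ) ^ K * ((Nat.gcd p.1 p.2 : ℕ) : ℝ) ^ 4}

theorem small_bound (K : ℝ) (hK : 1 ≤ K) : ∃ C : ℝ, ∀ D E F : ℕ, Squarefree D → Squarefree E →
    0 < F → ∃ (n : ℕ) (P : Fin n → Pt (D : ℚ)), LinearIndependent ℤ P ∧
      ((smallSol K (D * E ^ 2) (D * E ^ 2 * F ^ 4)).ncard : ℝ) ≤ C ^ (n + 1) := by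
  classical
  obtain ⟨C, hC⟩ := parallelogram
  have hC0 : 0 ≤ C := (abs_nonneg _).trans (hC 1 one_ne_zero 0 0)
  have hlog0 : 0 ≤ Real.log 2 := Real.log_nonneg (by norm_num)
  let L₁ : ℝ := 4 * C + 4 * Real.log 2 + 1
  have hL₁ : 0 < L₁ := by positivity
  obtain ⟨k₁, hk₁⟩ := exists_nat_gt (Real.exp L₁)
  obtain ⟨A, hA⟩ := exists_nat_gt (((k₁ : ℝ) + 1) ^ K)
  let Q : ℝ := max ((A + 1) ^ 2) (1 + 2 * √(6 * K))
  have hQ1 : 1 ≤ Q := by
    refine le_trans ?_ (le_max_right _ _)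
    have := Real.sqrt_nonneg (6 * K)
    linarith
  refine ⟨Q, fun D E F hD hE hF => ?_⟩
  have hD0 : 0 < D := Nat.pos_of_ne_zero hD.ne_zero
  have hE0 : 0 < E := Nat.pos_of_ne_zero hE.ne_zero
  set k := D * E ^ 2 with hk
  have hk0 : 0 < k := by positivity
  set w := E * F ^ 2 with hw
  have hw0 : 0 < w := by positivity
  have hrw : k * F ^ 4 = D * w ^ 2 := by rw [hk, hw]; ring
  rw [hrw]
  set r := D * w ^ 2 with hr
  have hrpos : 0 < r := by positivity
  obtain ⟨hfin, -⟩ := finite_of_subset hrpos (S := smallSol K k r) (fun p hp => hp.2.2.1)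
  let ι := hfin.toFinset
  have hprim : ∀ p : ι, ∃ X Y z : ℕ, IsSol D X Y z ∧ p.1.1 = Nat.gcd p.1.1 p.1.2 * X ∧
      p.1.2 = Nat.gcd p.1.1 p.1.2 * Y ∧ r = (Nat.gcd p.1.1 p.1.2) ^ 4 * (D * z ^ 2) := by
    intro p
    have hp := hfin.mem_toFinset.mp p.2
    exact exists_prim hD hw0 hp.1 hp.2.1 hp.2.2.1
  choose X Y z hsol hX hY hg using hprim
  have hne : ∀ i j : ι, i ≠ j → (X i, Y i) ≠ (X j, Y j) := by
    intro i j hij h
    apply hij
    have hXX : X i = X j := (Prod.mk.inj h).1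
    have hYY : Y i = Y j := (Prod.mk.inj h).2
    have e1 := (hsol i).eq
    have e2 := (hsol j).eq
    rw [hXX, hYY] at e1
    have e3 : D * z i ^ 2 = D * z j ^ 2 := by omega
    have e4 : (Nat.gcd i.1.1 i.1.2) ^ 4 * (D * z i ^ 2) =
        (Nat.gcd j.1.1 j.1.2) ^ 4 * (D * z i ^ 2) := by
      rw [← hg i, e3, ← hg j]
    have hz := (hsol i).hz
    have e5 := Nat.eq_of_mul_eq_mul_right (by positivity) e4
    have e6 : Nat.gcd i.1.1 i.1.2 = Nat.gcd j.1.1 j.1.2 :=
      Nat.pow_left_injective (n := 4) (by norm_num) e5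
    apply Subtype.ext
    apply Prod.ext
    · rw [hX i, hX j, e6, hXX]
    · rw [hY i, hY j, e6, hYY]
  have hpos : ∀ i : ι, 0 < D * z i ^ 2 := by
    intro i
    have := (hsol i).hz
    positivity
  -- `k` divides the primitive parts
  have hkd : ∀ i : ι, k ∣ D * z i ^ 2 := by
    intro i
    have hp := hfin.mem_toFinset.mp i.2
    have hg0 : 0 < Nat.gcd i.1.1 i.1.2 := Nat.gcd_pos_of_pos_left _ hp.1
    have h1 := hg i
    set g := Nat.gcd i.1.1 i.1.2
    have h2 : g ^ 2 ∣ E * F ^ 2 := by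
      apply dvd_of_sq_dvd hD (by positivity)
      refine ⟨D * z i ^ 2, ?_⟩
      calc D * (E * F ^ 2) ^ 2 = r := by rw [hr, hw]
        _ = _ := by rw [h1]; ring
    obtain ⟨f, hf⟩ := dvd_of_sq_dvd hE hg0 h2
    have h3 : g ^ 4 * (D * z i ^ 2) = g ^ 4 * (k * f ^ 4) := by
      rw [← h1, ← hrw, hf]; ring
    rw [Nat.eq_of_mul_eq_mul_left (by positivity) h3]
    exact Dvd.intro _ rfl
  have hup : ∀ i : ι, ((D * z i ^ 2 : ℕ) : ℝ) ≤ (k : ℝ) ^ K := by
    intro i
    have hp := hfin.mem_toFinset.mp i.2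
    have h4 := hp.2.2.2
    have h5 : (r : ℝ) = ((Nat.gcd i.1.1 i.1.2 : ℕ) : ℝ) ^ 4 * ((D * z i ^ 2 : ℕ) : ℝ) := by
      exact_mod_cast hg i
    have hgpos : (0 : ℝ) < ((Nat.gcd i.1.1 i.1.2 : ℕ) : ℝ) := by
      have : 0 < Nat.gcd i.1.1 i.1.2 := Nat.gcd_pos_of_pos_left _ hp.1
      exact_mod_cast this
    rw [h5, mul_comm] at h4
    exact le_of_mul_le_mul_right h4 (by positivity)
  by_cases hsmall : k ≤ k₁
  · -- finitely many `k`: count the primitive solutions
    refine ⟨0, Fin.elim0, linearIndependent_empty_type, ?_⟩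
    rw [zero_add, pow_one]
    have hAk : ∀ i : ι, D * z i ^ 2 ≤ A := by
      intro i
      have h1 : ((D * z i ^ 2 : ℕ) : ℝ) ≤ (A : ℝ) := by
        refine (hup i).trans (le_trans ?_ hA.le)
        apply Real.rpow_le_rpow (Nat.cast_nonneg _) _ (by linarith)
        have : (k : ℝ) ≤ k₁ := by exact_mod_cast hsmall
        linarith
      exact_mod_cast h1
    have hcard : ι.card ≤ (A + 1) ^ 2 := by
      have h1 : ι.card = Fintype.card ι := (Fintype.card_coe _).symm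
      have h2 : Fintype.card ι ≤ (Finset.range (A + 1) ×ˢ Finset.range (A + 1)).card := by
        rw [← Finset.card_univ]
        apply Finset.card_le_card_of_injOn (fun i => (X i, Y i))
        · intro i _
          obtain ⟨a1, a2⟩ := le_of_pow_four (hpos i) (hsol i).eq
          have := hAk i
          simp only [Finset.coe_product, Finset.coe_range, Set.mem_prod, Set.mem_Iio]
          omega
        · intro i _ j _ hij
          by_contra hcon
          exact hne i j hcon hij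
      rw [h1, sq]
      rw [Finset.card_product, Finset.card_range] at h2
      exact h2
    rw [Set.ncard_eq_toFinset_card _ hfin]
    calc ((hfin.toFinset.card : ℕ) : ℝ) ≤ (((A + 1) ^ 2 : ℕ) : ℝ) := by exact_mod_cast hcard
      _ = ((A : ℝ) + 1) ^ 2 := by push_cast; ring
      _ ≤ Q := le_max_left _ _
  push Not at hsmall
  have hkexp : Real.exp L₁ < (k : ℝ) := hk₁.trans (by exact_mod_cast hsmall)
  set L := Real.log (k : ℝ) with hL
  have hLb : L₁ ≤ L := by
    rw [hL, Real.le_log_iff_exp_le (by exact_mod_cast hk0)]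
    exact hkexp.le
  have hL0 : 0 < L := hL₁.trans_le hLb
  have hDq : (D : ℚ) ≠ 0 := by positivity
  obtain ⟨n, P, v, hP, v1, -, v3⟩ := height_vectors' (G := Pt (D : ℚ)) hn C hn_nonneg (hC D hDq)
    (fun p : ι => (hsol p).pt)
  refine ⟨n, P, hP, ?_⟩
  have hKL : L ≤ K * L := by nlinarith
  have hv : ∀ i, ‖v i‖ ≤ √(K * L) := by
    intro i
    apply Real.le_sqrt_of_sq_le
    have h1 := (abs_le.mp (v1 i)).2
    have h2 := (hsol i).hn_le
    have h3 : Real.log ((D * z i ^ 2 : ℕ) : ℝ) ≤ K * L := by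
      rw [hL, ← Real.log_rpow (by exact_mod_cast hk0)]
      apply Real.log_le_log (by exact_mod_cast hpos i) (hup i)
    have h4 : 4 * C ≤ L := by
      refine le_trans ?_ hLb
      simp only [L₁]; linarith
    linarith
  have hsep : ∀ i j, i ≠ j → √(L / 6) ≤ ‖v i - v j‖ := by
    intro i j hij
    apply Real.sqrt_le_iff.mpr ⟨norm_nonneg _, ?_⟩
    have h1 := (repulsion (hsol i) (hsol j) (hne i j hij)).2
    have h2 := (abs_le.mp (v3 i j)).1
    have h3 : L ≤ Real.log (Nat.gcd (D * z i ^ 2) (D * z j ^ 2) : ℕ) := by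
      apply Real.log_le_log (by exact_mod_cast hk0)
      have : 0 < Nat.gcd (D * z i ^ 2) (D * z j ^ 2) := Nat.gcd_pos_of_pos_left _ (hpos i)
      exact_mod_cast Nat.le_of_dvd this (Nat.dvd_gcd (hkd i) (hkd j))
    have h4 : 4 * C + 4 * Real.log 2 ≤ L := by
      refine le_trans ?_ hLb
      simp only [L₁]; linarith
    linarith
  have hs0 : 0 < √(L / 6) := Real.sqrt_pos.mpr (by positivity)
  have hp := pack v (Real.sqrt_nonneg _) hs0 hv hsep
  rw [finrank_euclideanSpace_fin] at hp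
  have e1 : 1 + 2 * √(K * L) / √(L / 6) = 1 + 2 * √(6 * K) := by
    have : √(K * L) = √(6 * K) * √(L / 6) := by
      rw [← Real.sqrt_mul (by positivity)]
      congr 1
      ring
    rw [this]
    field_simp
  rw [e1] at hp
  have hcard : (Fintype.card ι : ℝ) = ((smallSol K k r).ncard : ℝ) := by
    rw [Fintype.card_coe, Set.ncard_eq_toFinset_card _ hfin]
  rw [hcard] at hp
  have hQ2 : 1 + 2 * √(6 * K) ≤ Q := le_max_right _ _
  calc ((smallSol K k r).ncard : ℝ) ≤ (1 + 2 * √(6 * K)) ^ n := hp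
    _ ≤ Q ^ n := pow_le_pow_left₀ (by positivity) hQ2 n
    _ ≤ Q ^ (n + 1) := pow_le_pow_right₀ hQ1 (Nat.le_succ n)

end Pool.Agent.RB
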