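import Mathlib

/-!
# The arithmetic of two solutions of `x⁴ - y⁴ = D z²`
-/

namespace Pool.Agent.RB

/-- `(x, y, z)` is a positive solution of `x⁴ - y⁴ = D z²` with `x, y` coprime. -/
structure IsSol (D x y z : ℕ) : Prop where
  hD : 0 < D
  hx : 0 < x
  hy : 0 < y
  hz : 0 < z
  cop : Nat.Coprime x y
  eq : x ^ 4 = y ^ 4 + D * z ^ 2

lemma dvd_four_mul {g a b c c' : ℕ} (hg : 0 < g) (h1 : g ∣ a * c) (h2 : g ∣ b * c')
    (h : ∀ d, d ∣ g → d ∣ c → d ∣ c' → d ∣ 4) : g ∣ 4 * (a * b) := by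
  have k1 : g ∣ a * Nat.gcd g c := by
    rw [← Nat.gcd_mul_left]
    exact Nat.dvd_gcd (Dvd.intro_left _ rfl) h1
  have k2 : g ∣ b * Nat.gcd g c' := by
    rw [← Nat.gcd_mul_left]
    exact Nat.dvd_gcd (Dvd.intro_left _ rfl) h2
  have k3 : Nat.gcd g c * Nat.gcd g c' ∣ 4 * g := by
    rw [← Nat.gcd_mul_lcm]
    apply mul_dvd_mul
    · apply h
      · exact (Nat.gcd_dvd_left _ _).trans (Nat.gcd_dvd_left _ _)
      · exact (Nat.gcd_dvd_left _ _).trans (Nat.gcd_dvd_right _ _)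
      · exact (Nat.gcd_dvd_right _ _).trans (Nat.gcd_dvd_right _ _)
    · exact Nat.lcm_dvd (Nat.gcd_dvd_left _ _) (Nat.gcd_dvd_left _ _)
  have k4 : g * g ∣ g * (4 * (a * b)) := by
    calc g * g ∣ (a * Nat.gcd g c) * (b * Nat.gcd g c') := mul_dvd_mul k1 k2
      _ = (a * b) * (Nat.gcd g c * Nat.gcd g c') := by ring
      _ ∣ (a * b) * (4 * g) := mul_dvd_mul_left _ k3
      _ = g * (4 * (a * b)) := by ring
  exact (mul_dvd_mul_iff_left hg.ne').mp k4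

/-- A common divisor of `r₁`, `r₂`, `M²` and `L²` divides `4`. -/
lemma dvd_four {D x1 y1 z1 x2 y2 z2 : ℕ} (s1 : IsSol D x1 y1 z1) (s2 : IsSol D x2 y2 z2)
    {d : ℕ} (d1 : d ∣ D * z1 ^ 2) (d2 : d ∣ D * z2 ^ 2)
    (dM : (d : ℤ) ∣ ((x1 : ℤ) ^ 2 * x2 ^ 2 + y1 ^ 2 * y2 ^ 2) ^ 2)
    (dL : (d : ℤ) ∣ ((x2 : ℤ) ^ 2 * y1 ^ 2 - x1 ^ 2 * y2 ^ 2) ^ 2) : d ∣ 4 := by
  have hd0 : d ≠ 0 := by
    rintro rfl
    have := s1.hD; have := s1.hz
    have h0 : 0 < D * z1 ^ 2 := by positivity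
    have := Nat.eq_zero_of_zero_dvd d1
    omega
  -- facts at a prime divisor
  have hp : ∀ p : ℕ, p.Prime → p ∣ d → p = 2 := by
    intro p hp hpd
    by_contra hp2
    have := Fact.mk hp
    have key : ∀ x y z : ℕ, IsSol D x y z → d ∣ D * z ^ 2 →
        ((x : ZMod p) ≠ 0 ∧ (y : ZMod p) ≠ 0 ∧ (x : ZMod p) ^ 4 = (y : ZMod p) ^ 4) := by
      intro x y z s hd
      have h1 : (x : ZMod p) ^ 4 = (y : ZMod p) ^ 4 := by
        have := congrArg (Nat.cast : ℕ → ZMod p) s.eq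
        push_cast at this
        rw [this]
        have h0 : ((D * z ^ 2 : ℕ) : ZMod p) = 0 :=
          (ZMod.natCast_eq_zero_iff _ _).mpr (hpd.trans hd)
        push_cast at h0
        rw [h0, add_zero]
      have h2 : ¬ ((x : ZMod p) = 0 ∧ (y : ZMod p) = 0) := by
        rintro ⟨a, b⟩
        rw [ZMod.natCast_eq_zero_iff] at a b
        have := Nat.dvd_gcd a b
        rw [s.cop.gcd_eq_one] at this
        exact hp.one_lt.ne' (Nat.dvd_one.mp this)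
      refine ⟨fun h => h2 ⟨h, ?_⟩, fun h => h2 ⟨?_, h⟩, h1⟩
      · rw [h] at h1
        exact pow_eq_zero_iff (four_ne_zero) |>.mp (by rw [← h1]; ring)
      · rw [h] at h1
        exact pow_eq_zero_iff (four_ne_zero) |>.mp (by rw [h1]; ring)
    obtain ⟨a1, b1, e1⟩ := key _ _ _ s1 d1
    obtain ⟨a2, b2, e2⟩ := key _ _ _ s2 d2
    have hM : ((x1 : ZMod p) ^ 2 * x2 ^ 2 + y1 ^ 2 * y2 ^ 2) = 0 := by
      have : ((((x1 : ℤ) ^ 2 * x2 ^ 2 + y1 ^ 2 * y2 ^ 2) ^ 2 : ℤ) : ZMod p) = 0 := by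
        rw [ZMod.intCast_zmod_eq_zero_iff_dvd]
        exact (Int.natCast_dvd_natCast.mpr hpd).trans dM
      push_cast at this
      exact pow_eq_zero_iff (two_ne_zero) |>.mp this
    have hL : ((x2 : ZMod p) ^ 2 * y1 ^ 2 - x1 ^ 2 * y2 ^ 2) = 0 := by
      have : ((((x2 : ℤ) ^ 2 * y1 ^ 2 - x1 ^ 2 * y2 ^ 2) ^ 2 : ℤ) : ZMod p) = 0 := by
        rw [ZMod.intCast_zmod_eq_zero_iff_dvd]
        exact (Int.natCast_dvd_natCast.mpr hpd).trans dL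
      push_cast at this
      exact pow_eq_zero_iff (two_ne_zero) |>.mp this
    have h3 : (2 : ZMod p) * ((y1 : ZMod p) ^ 4 * (y2 : ZMod p) ^ 2) = 0 := by
      linear_combination (y1 : ZMod p) ^ 2 * hM - (x1 : ZMod p) ^ 2 * hL - (y2 : ZMod p) ^ 2 * e1
    have h4 : (2 : ZMod p) = 0 := by
      rcases mul_eq_zero.mp h3 with h | h
      · exact h
      · exact absurd h (mul_ne_zero (pow_ne_zero _ b1) (pow_ne_zero _ b2))
    have h5 : ((2 : ℕ) : ZMod p) = 0 := by exact_mod_cast h4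
    rw [ZMod.natCast_eq_zero_iff] at h5
    exact hp2 ((Nat.prime_dvd_prime_iff_eq hp Nat.prime_two).mp h5)
  -- the power of `2`
  have hk := Nat.eq_prime_pow_of_unique_prime_dvd hd0 (fun {q} hq hqd => hp q hq hqd)
  set k := d.primeFactorsList.length
  rw [hk]
  have hk2 : k ≤ 2 := by
    by_contra hk3
    have h8 : (8 : ℕ) ∣ d := by
      rw [hk]
      exact pow_dvd_pow 2 (show 3 ≤ k by omega)
    have h2 : 2 ∣ d := (by norm_num : (2:ℕ) ∣ 8).trans h8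
    have odd : ∀ x y z : ℕ, IsSol D x y z → d ∣ D * z ^ 2 →
        ((x : ZMod 8) ^ 2 = 1 ∧ (y : ZMod 8) ^ 2 = 1) := by
      intro x y z s hd
      have hpar : Even (x ^ 4) ↔ Even (y ^ 4) := by
        rw [s.eq, Nat.even_add]
        have : Even (D * z ^ 2) := even_iff_two_dvd.mpr (h2.trans hd)
        simp [this]
      rw [Nat.even_pow' (by norm_num), Nat.even_pow' (by norm_num)] at hpar
      have hno : ¬ (Even x ∧ Even y) := by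
        rintro ⟨a, b⟩
        have := Nat.dvd_gcd (even_iff_two_dvd.mp a) (even_iff_two_dvd.mp b)
        rw [s.cop.gcd_eq_one] at this
        omega
      have hxo : Odd x := by
        rw [← Nat.not_even_iff_odd]; intro hx; exact hno ⟨hx, hpar.mp hx⟩
      have hyo : Odd y := by
        rw [← Nat.not_even_iff_odd]; intro hy; exact hno ⟨hpar.mpr hy, hy⟩
      have hsq : ∀ a : ZMod 8, (2 * a + 1) ^ 2 = 1 := by decide
      obtain ⟨a, rfl⟩ := hxo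
      obtain ⟨b, rfl⟩ := hyo
      push_cast
      exact ⟨hsq _, hsq _⟩
    obtain ⟨a1, b1⟩ := odd _ _ _ s1 d1
    obtain ⟨a2, b2⟩ := odd _ _ _ s2 d2
    have hM : ((((x1 : ℤ) ^ 2 * x2 ^ 2 + y1 ^ 2 * y2 ^ 2) ^ 2 : ℤ) : ZMod 8) = 0 := by
      have : (((8 : ℕ) : ℤ)) ∣ ((x1 : ℤ) ^ 2 * x2 ^ 2 + y1 ^ 2 * y2 ^ 2) ^ 2 :=
        (Int.natCast_dvd_natCast.mpr h8).trans dM
      exact (ZMod.intCast_zmod_eq_zero_iff_dvd _ 8).mpr this
    push_cast at hM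
    rw [a1, b1, a2, b2] at hM
    revert hM
    decide
  calc 2 ^ k ∣ 2 ^ 2 := pow_dvd_pow 2 hk2
    _ = 4 := by norm_num

/-- The numerical identity between the coordinates. -/
lemma key_identity {D x1 y1 z1 x2 y2 z2 : ℕ} (s1 : IsSol D x1 y1 z1) (s2 : IsSol D x2 y2 z2) :
    (D : ℤ) * ((x1 : ℤ) * y1 * z2 - x2 * y2 * z1) * ((x1 : ℤ) * y1 * z2 + x2 * y2 * z1) =
      ((x1 : ℤ) ^ 2 * x2 ^ 2 + y1 ^ 2 * y2 ^ 2) * ((x2 : ℤ) ^ 2 * y1 ^ 2 - x1 ^ 2 * y2 ^ 2) := by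
  have e1 : (x1 : ℤ) ^ 4 = (y1 : ℤ) ^ 4 + D * (z1 : ℤ) ^ 2 := by exact_mod_cast s1.eq
  have e2 : (x2 : ℤ) ^ 4 = (y2 : ℤ) ^ 4 + D * (z2 : ℤ) ^ 2 := by exact_mod_cast s2.eq
  linear_combination (x2 : ℤ) ^ 2 * y2 ^ 2 * e1 - (x1 : ℤ) ^ 2 * y1 ^ 2 * e2

lemma gcd_dvd_N {D x1 y1 z1 x2 y2 z2 : ℕ} (s1 : IsSol D x1 y1 z1) (s2 : IsSol D x2 y2 z2)
    (ε : ℤ) (hε : ε ^ 2 = 1) :
    ((Nat.gcd (D * z1 ^ 2) (D * z2 ^ 2) : ℕ) : ℤ) ∣
      (D : ℤ) * ((x1 : ℤ) * y1 * z2 + ε * (x2 * y2 * z1)) ^ 2 := by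
  set g := Nat.gcd (D * z1 ^ 2) (D * z2 ^ 2) with hg
  have g1 : g ∣ D * z1 ^ 2 := Nat.gcd_dvd_left _ _
  have g2 : g ∣ D * z2 ^ 2 := Nat.gcd_dvd_right _ _
  have g12 : g ∣ D * z1 * z2 := by
    have : g ^ 2 ∣ (D * z1 * z2) ^ 2 := by
      have e : (D * z1 * z2) ^ 2 = (D * z1 ^ 2) * (D * z2 ^ 2) := by ring
      rw [e, sq]
      exact mul_dvd_mul g1 g2
    exact (Nat.pow_dvd_pow_iff (two_ne_zero)).mp this
  have h1 : (g : ℤ) ∣ (D : ℤ) * (z1 : ℤ) ^ 2 := by exact_mod_cast g1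
  have h2 : (g : ℤ) ∣ (D : ℤ) * (z2 : ℤ) ^ 2 := by exact_mod_cast g2
  have h12 : (g : ℤ) ∣ (D : ℤ) * z1 * z2 := by exact_mod_cast g12
  have e : (D : ℤ) * ((x1 : ℤ) * y1 * z2 + ε * (x2 * y2 * z1)) ^ 2 =
      ((D : ℤ) * (z2 : ℤ) ^ 2) * (x1 * y1) ^ 2 + ((D : ℤ) * (z1 : ℤ) ^ 2) * (x2 * y2) ^ 2 +
        ((D : ℤ) * z1 * z2) * (2 * ε * x1 * y1 * x2 * y2) := by
    linear_combination (D : ℤ) * (x2 * y2 * z1) ^ 2 * hε
  rw [e]
  exact dvd_add (dvd_add (h2.mul_right _) (h1.mul_right _)) (h12.mul_right _)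

lemma lowest_terms {A B a b : ℕ} (h : A * b = a * B) (hab : Nat.Coprime a b) (ha : 0 < a) :
    ∃ c, A = a * c ∧ B = b * c := by
  have h1 : a ∣ A * b := ⟨B, h⟩
  obtain ⟨c, hc⟩ := hab.dvd_of_dvd_mul_right h1
  refine ⟨c, hc, ?_⟩
  have h2 : a * (b * c) = a * B := by rw [← h, hc]; ring
  exact (Nat.eq_of_mul_eq_mul_left ha h2).symm

/-- The height of `X(P ± Q) / D`. -/
theorem height_ge {D x1 y1 z1 x2 y2 z2 : ℕ} (s1 : IsSol D x1 y1 z1) (s2 : IsSol D x2 y2 z2)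
    (ε : ℤ) (hε : ε ^ 2 = 1) (hL : (x2 : ℤ) ^ 2 * y1 ^ 2 - x1 ^ 2 * y2 ^ 2 ≠ 0) (t : ℚ)
    (ht : t = (D : ℚ) * ((x1 : ℚ) * y1 * z2 + ε * (x2 * y2 * z1)) ^ 2 /
      ((x2 : ℚ) ^ 2 * y1 ^ 2 - x1 ^ 2 * y2 ^ 2) ^ 2) :
    Nat.gcd (D * z1 ^ 2) (D * z2 ^ 2) ≤ 4 * (max t.num.natAbs t.den) ^ 2 := by
  obtain ⟨L, hLd⟩ : ∃ L : ℤ, L = (x2 : ℤ) ^ 2 * y1 ^ 2 - x1 ^ 2 * y2 ^ 2 := ⟨_, rfl⟩
  obtain ⟨M, hMd⟩ : ∃ M : ℤ, M = (x1 : ℤ) ^ 2 * x2 ^ 2 + y1 ^ 2 * y2 ^ 2 := ⟨_, rfl⟩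
  obtain ⟨N, hN⟩ : ∃ N : ℤ, N = (x1 : ℤ) * y1 * z2 + ε * (x2 * y2 * z1) := ⟨_, rfl⟩
  obtain ⟨N', hN'⟩ : ∃ N' : ℤ, N' = (x1 : ℤ) * y1 * z2 + (-ε) * (x2 * y2 * z1) := ⟨_, rfl⟩
  have hD := s1.hD
  have hx1 := s1.hx
  have hy1 := s1.hy
  have hx2 := s2.hx
  have hy2 := s2.hy
  have hM0 : M ≠ 0 := by
    rw [hMd]
    positivity
  have hL0 : L ≠ 0 := hLd ▸ hL
  have key : (D : ℤ) * N * N' = M * L := by
    rw [hN, hN', hMd, hLd, ← key_identity s1 s2]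
    linear_combination (-(D : ℤ) * (x2 * y2 * z1) ^ 2) * hε
  have hN0 : N ≠ 0 := by
    rintro h
    rw [h] at key
    simp only [mul_zero, zero_mul] at key
    exact mul_ne_zero hM0 hL0 key.symm
  obtain ⟨A, hA⟩ : ∃ A : ℕ, A = D * N.natAbs ^ 2 := ⟨_, rfl⟩
  obtain ⟨B, hB⟩ : ∃ B : ℕ, B = L.natAbs ^ 2 := ⟨_, rfl⟩
  obtain ⟨A', hA'⟩ : ∃ A' : ℕ, A' = M.natAbs ^ 2 := ⟨_, rfl⟩
  obtain ⟨B', hB'⟩ : ∃ B' : ℕ, B' = D * N'.natAbs ^ 2 := ⟨_, rfl⟩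
  have zA : (A : ℤ) = D * N ^ 2 := by rw [hA]; push_cast; rw [sq_abs]
  have zB : (B : ℤ) = L ^ 2 := by rw [hB]; push_cast; rw [sq_abs]
  have zA' : (A' : ℤ) = M ^ 2 := by rw [hA']; push_cast; rw [sq_abs]
  have zB' : (B' : ℤ) = D * N' ^ 2 := by rw [hB']; push_cast; rw [sq_abs]
  have hA0 : 0 < A := by
    have : 0 < N.natAbs := Int.natAbs_pos.mpr hN0
    rw [hA]; positivity
  have hB0 : 0 < B := by
    have : 0 < L.natAbs := Int.natAbs_pos.mpr hL0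
    rw [hB]; positivity
  have hprod : A * B' = A' * B := by
    have : ((A * B' : ℕ) : ℤ) = ((A' * B : ℕ) : ℤ) := by
      push_cast
      rw [zA, zB, zA', zB']
      linear_combination ((D : ℤ) * N * N' + M * L) * key
    exact_mod_cast this
  have htq : t = (A : ℚ) / B := by
    rw [ht]
    have q1 : (A : ℚ) = (D : ℚ) * ((x1 : ℚ) * y1 * z2 + ε * (x2 * y2 * z1)) ^ 2 := by
      have : ((A : ℤ) : ℚ) = ((D * N ^ 2 : ℤ) : ℚ) := by rw [zA]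
      rw [hN] at this
      push_cast at this
      exact this
    have q2 : (B : ℚ) = ((x2 : ℚ) ^ 2 * y1 ^ 2 - x1 ^ 2 * y2 ^ 2) ^ 2 := by
      have : ((B : ℤ) : ℚ) = ((L ^ 2 : ℤ) : ℚ) := by rw [zB]
      rw [hLd] at this
      push_cast at this
      exact this
    rw [q1, q2]
  have hBq : (B : ℚ) ≠ 0 := by positivity
  have hAq : (A : ℚ) ≠ 0 := by positivity
  have ht0 : 0 < t := by rw [htq]; positivity
  have ha0 : 0 < t.num := Rat.num_pos.mpr ht0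
  have hab : A * t.den = t.num.natAbs * B := by
    have h1 : (t.num : ℚ) / t.den = (A : ℚ) / B := by rw [Rat.num_div_den, htq]
    have hden : (t.den : ℚ) ≠ 0 := by exact_mod_cast t.den_nz
    rw [div_eq_div_iff hden hBq] at h1
    have h2 : ((A * t.den : ℕ) : ℤ) = ((t.num.natAbs * B : ℕ) : ℤ) := by
      push_cast
      rw [abs_of_pos ha0]
      have : ((A : ℤ) * t.den : ℤ) = t.num * B := by
        have h3 : (t.num : ℚ) * B = A * t.den := h1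
        exact_mod_cast h3.symm
      exact this
    exact_mod_cast h2
  have ha0' : 0 < t.num.natAbs := Int.natAbs_pos.mpr ha0.ne'
  obtain ⟨c, hc1, hc2⟩ := lowest_terms hab t.reduced ha0'
  have hab' : A' * t.den = t.num.natAbs * B' := by
    have : A * (A' * t.den) = A * (t.num.natAbs * B') := by
      calc A * (A' * t.den) = A' * (A * t.den) := by ring
        _ = A' * (t.num.natAbs * B) := by rw [hab]
        _ = t.num.natAbs * (A' * B) := by ring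
        _ = t.num.natAbs * (A * B') := by rw [hprod]
        _ = _ := by ring
    exact Nat.eq_of_mul_eq_mul_left hA0 this
  obtain ⟨c', hc1', hc2'⟩ := lowest_terms hab' t.reduced ha0'
  have g1 := gcd_dvd_N s1 s2 ε hε
  have g2 := gcd_dvd_N s1 s2 (-ε) (by rw [neg_sq]; exact hε)
  rw [← hN, ← zA] at g1
  rw [← hN', ← zB'] at g2
  have g1' : Nat.gcd (D * z1 ^ 2) (D * z2 ^ 2) ∣ A := by exact_mod_cast g1
  have g2' : Nat.gcd (D * z1 ^ 2) (D * z2 ^ 2) ∣ B' := by exact_mod_cast g2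
  have hgpos : 0 < Nat.gcd (D * z1 ^ 2) (D * z2 ^ 2) := by
    apply Nat.gcd_pos_of_pos_left
    have := s1.hz
    positivity
  have hfin := dvd_four_mul hgpos (hc1 ▸ g1') (hc2' ▸ g2') (fun d hd1 hd2 hd3 => by
    refine dvd_four s1 s2 (hd1.trans (Nat.gcd_dvd_left _ _)) (hd1.trans (Nat.gcd_dvd_right _ _))
      ?_ ?_
    · rw [← hMd, ← zA', hc1']
      exact_mod_cast hd3.mul_left _
    · rw [← hLd, ← zB, hc2]
      exact_mod_cast hd2.mul_left _)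
  have hle := Nat.le_of_dvd (by have := t.den_pos; positivity) hfin
  calc _ ≤ 4 * (t.num.natAbs * t.den) := hle
    _ ≤ 4 * (max t.num.natAbs t.den) ^ 2 := by
      rw [sq]
      gcongr
      · exact le_max_left _ _
      · exact le_max_right _ _

end Pool.Agent.RB
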