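import Mathlib

/-!
# Many large divisors with small pairwise greatest common divisors
-/

namespace Pool.Agent.RB

open ArithmeticFunction

lemma sum_ite_dvd {r a : ℕ} (hr : r ≠ 0) (ha : a ∣ r) :
    ∑ d ∈ r.divisors, vonMangoldt d * (if d ∣ a then (1 : ℝ) else 0) = Real.log a := by
  have ha0 : a ≠ 0 := by rintro rfl; exact hr (Nat.eq_zero_of_zero_dvd ha)
  rw [← vonMangoldt_sum]
  simp only [mul_ite, mul_one, mul_zero]
  rw [← Finset.sum_filter]
  refine Finset.sum_congr ?_ fun _ _ => rfl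
  ext d
  simp only [Finset.mem_filter, Nat.mem_divisors]
  constructor
  · rintro ⟨-, h⟩; exact ⟨h, ha0⟩
  · rintro ⟨h, -⟩; exact ⟨⟨h.trans ha, hr⟩, h⟩

/-- Divisors `a i ≥ r ^ δ` of `r` with pairwise gcd at most `r ^ η`, `η < δ²`, are few. -/
theorem few_divisors {ι : Type*} {r : ℕ} (hr : 1 < r) (T : Finset ι) (a : ι → ℕ) {δ η : ℝ}
    (ha : ∀ i ∈ T, a i ∣ r) (h1 : ∀ i ∈ T, δ * Real.log r ≤ Real.log (a i)) (hδ : 0 ≤ δ)
    (h2 : ∀ i ∈ T, ∀ j ∈ T, i ≠ j → Real.log (Nat.gcd (a i) (a j) : ℕ) ≤ η * Real.log r) :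
    (T.card : ℝ) * (δ ^ 2 - η) ≤ 1 ∨ η < 0 := by
  classical
  by_cases hη : η < 0
  · exact Or.inr hη
  left
  push Not at hη
  have hL : 0 < Real.log r := Real.log_pos (by exact_mod_cast hr)
  have hr0 : r ≠ 0 := by omega
  set L := Real.log r
  set t : ℝ := δ * T.card
  let e : ι → ℕ → ℝ := fun i d => if d ∣ a i then (1 : ℝ) else 0
  have key : 0 ≤ ∑ d ∈ r.divisors, vonMangoldt d * (∑ i ∈ T, e i d - t) ^ 2 :=
    Finset.sum_nonneg fun d _ => mul_nonneg vonMangoldt_nonneg (sq_nonneg _)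
  have e0 : ∀ d, vonMangoldt d * (∑ i ∈ T, e i d - t) ^ 2 =
      ∑ i ∈ T, ∑ j ∈ T, vonMangoldt d * (e i d * e j d) - 2 * t * ∑ i ∈ T, vonMangoldt d * e i d
        + t ^ 2 * vonMangoldt d := by
    intro d
    have s1 : ∑ i ∈ T, ∑ j ∈ T, vonMangoldt d * (e i d * e j d) =
        vonMangoldt d * (∑ i ∈ T, e i d) ^ 2 := by
      rw [sq, Finset.sum_mul_sum, Finset.mul_sum]
      refine Finset.sum_congr rfl fun i _ => ?_
      rw [Finset.mul_sum]
    rw [s1, ← Finset.mul_sum]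
    ring
  have e1 : ∑ d ∈ r.divisors, vonMangoldt d * (∑ i ∈ T, e i d - t) ^ 2 =
      ∑ i ∈ T, ∑ j ∈ T, ∑ d ∈ r.divisors, vonMangoldt d * (e i d * e j d)
        - 2 * t * ∑ i ∈ T, ∑ d ∈ r.divisors, vonMangoldt d * e i d
        + t ^ 2 * ∑ d ∈ r.divisors, vonMangoldt d := by
    simp_rw [e0]
    rw [Finset.sum_add_distrib, Finset.sum_sub_distrib, ← Finset.mul_sum, ← Finset.mul_sum]
    congr 2
    · rw [Finset.sum_comm]
      refine Finset.sum_congr rfl fun i _ => ?_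
      rw [Finset.sum_comm]
    · congr 1
      rw [Finset.sum_comm]
  rw [e1] at key
  have s2 : ∑ d ∈ r.divisors, vonMangoldt d = L := vonMangoldt_sum
  have s3 : ∀ i ∈ T, ∑ d ∈ r.divisors, vonMangoldt d * e i d = Real.log (a i) := fun i hi =>
    sum_ite_dvd hr0 (ha i hi)
  have s4 : ∀ i ∈ T, ∀ j ∈ T, ∑ d ∈ r.divisors, vonMangoldt d * (e i d * e j d) =
      Real.log (Nat.gcd (a i) (a j) : ℕ) := by
    intro i hi j hj
    rw [← sum_ite_dvd hr0 ((Nat.gcd_dvd_left (a i) (a j)).trans (ha i hi))]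
    refine Finset.sum_congr rfl fun d _ => ?_
    simp only [e, Nat.dvd_gcd_iff]
    by_cases h1 : d ∣ a i <;> by_cases h2 : d ∣ a j <;> simp [h1, h2]
  have s5 : ∀ i ∈ T, ∀ j ∈ T, ∑ d ∈ r.divisors, vonMangoldt d * (e i d * e j d) ≤
      (if i = j then L else 0) + η * L := by
    intro i hi j hj
    rw [s4 i hi j hj]
    by_cases hij : i = j
    · subst hij
      rw [if_pos rfl, Nat.gcd_self]
      have : Real.log (a i) ≤ L := by
        apply Real.log_le_log
        · have : 0 < a i := Nat.pos_of_dvd_of_pos (ha i hi) (by omega)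
          exact_mod_cast this
        · exact_mod_cast Nat.le_of_dvd (by omega) (ha i hi)
      have := mul_nonneg hη hL.le
      linarith
    · rw [if_neg hij, zero_add]
      exact h2 i hi j hj hij
  have s6 : ∑ i ∈ T, ∑ j ∈ T, ∑ d ∈ r.divisors, vonMangoldt d * (e i d * e j d) ≤
      T.card * L + T.card ^ 2 * (η * L) := by
    calc _ ≤ ∑ i ∈ T, ∑ j ∈ T, ((if i = j then L else 0) + η * L) :=
          Finset.sum_le_sum fun i hi => Finset.sum_le_sum fun j hj => s5 i hi j hj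
      _ = ∑ i ∈ T, (L + T.card * (η * L)) := by
          refine Finset.sum_congr rfl fun i hi => ?_
          rw [Finset.sum_add_distrib, Finset.sum_ite_eq, if_pos hi, Finset.sum_const, nsmul_eq_mul]
      _ = _ := by
          rw [Finset.sum_const, nsmul_eq_mul]; ring
  have s7 : T.card * (δ * L) ≤ ∑ i ∈ T, ∑ d ∈ r.divisors, vonMangoldt d * e i d := by
    calc T.card * (δ * L) = ∑ i ∈ T, δ * L := by rw [Finset.sum_const, nsmul_eq_mul]
      _ ≤ _ := Finset.sum_le_sum fun i hi => by rw [s3 i hi]; exact h1 i hi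
  rw [s2] at key
  rcases Nat.eq_zero_or_pos T.card with h0 | h0
  · rw [h0]; simp
  have hc : (0 : ℝ) < T.card := by exact_mod_cast h0
  have ht : 0 ≤ t := by positivity
  have s8 : 0 ≤ T.card * L + T.card ^ 2 * (η * L) - 2 * t * (T.card * (δ * L)) + t ^ 2 * L := by
    have := mul_le_mul_of_nonneg_left s7 (by positivity : 0 ≤ 2 * t)
    linarith
  have s9 : T.card * L + T.card ^ 2 * (η * L) - 2 * t * (T.card * (δ * L)) + t ^ 2 * L =
      (T.card * L) * (1 - T.card * (δ ^ 2 - η)) := by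
    simp only [t]; ring
  rw [s9] at s8
  have := nonneg_of_mul_nonneg_right s8 (by positivity)
  linarith

end Pool.Agent.RB
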