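import Pool.Agent.Lib_helper21.RB.Quad

/-!
# Gram matrices of points
-/

namespace Pool.Agent.RB

open Module Set Function
open scoped Matrix MatrixOrder

variable {G : Type*} [AddCommGroup G]

lemma sum_bilin (B : G →+ G →+ ℝ) {ι : Type*} [Fintype ι] (P : ι → G) (m : ι → ℤ) :
    B (∑ i, m i • P i) (∑ i, m i • P i) = ∑ i, ∑ j, (m i : ℝ) * m j * B (P i) (P j) := by
  rw [map_sum B, AddMonoidHom.finsetSum_apply]
  refine Finset.sum_congr rfl fun i _ => ?_
  rw [map_sum]
  refine Finset.sum_congr rfl fun j _ => ?_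
  rw [map_zsmul B, AddMonoidHom.zsmul_apply, map_zsmul]
  simp only [zsmul_eq_mul]
  ring

/-- A nonnegative quadratic form on the integers is nonnegative on the reals. -/
lemma psd_of_int {ι : Type*} [Fintype ι] (A : ι → ι → ℝ)
    (h : ∀ m : ι → ℤ, 0 ≤ ∑ i, ∑ j, (m i : ℝ) * m j * A i j) (x : ι → ℝ) :
    0 ≤ ∑ i, ∑ j, x i * x j * A i j := by
  have hrat : ∀ y : ι → ℚ, 0 ≤ ∑ i, ∑ j, (y i : ℝ) * y j * A i j := by
    intro y
    -- common denominator
    let N : ℕ := ∏ i, (y i).den
    have hN : 0 < N := Finset.prod_pos fun i _ => (y i).den_pos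
    have hm : ∀ i, ∃ m : ℤ, (y i : ℝ) * N = m := by
      intro i
      obtain ⟨k, hk⟩ : (y i).den ∣ N := Finset.dvd_prod_of_mem _ (Finset.mem_univ i)
      refine ⟨(y i).num * k, ?_⟩
      rw [hk]
      push_cast
      rw [← mul_assoc]
      congr 1
      exact_mod_cast Rat.mul_den_eq_num (y i)
    choose m hm using hm
    have h1 := h m
    have e : ∑ i, ∑ j, (m i : ℝ) * m j * A i j
        = (N : ℝ) ^ 2 * ∑ i, ∑ j, (y i : ℝ) * y j * A i j := by
      rw [Finset.mul_sum]
      refine Finset.sum_congr rfl fun i _ => ?_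
      rw [Finset.mul_sum]
      refine Finset.sum_congr rfl fun j _ => ?_
      rw [← hm i, ← hm j]; ring
    rw [e] at h1
    have hN' : (0 : ℝ) < (N : ℝ) ^ 2 := by positivity
    exact nonneg_of_mul_nonneg_right h1 hN'
  have hd : DenseRange (Pi.map (fun (_ : ι) (q : ℚ) => (q : ℝ))) :=
    DenseRange.piMap fun _ => Rat.denseRange_cast
  have hc : IsClosed {x : ι → ℝ | 0 ≤ ∑ i, ∑ j, x i * x j * A i j} := by
    apply isClosed_le continuous_const
    fun_prop
  have hsub : range (Pi.map (fun (_ : ι) (q : ℚ) => (q : ℝ))) ⊆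
      {x : ι → ℝ | 0 ≤ ∑ i, ∑ j, x i * x j * A i j} := by
    rintro _ ⟨y, rfl⟩
    exact hrat y
  have := hc.closure_subset_iff.mpr hsub
  rw [hd.closure_range] at this
  exact this (mem_univ x)

/-- Vectors with a given positive semidefinite Gram matrix. -/
theorem gram (B : G →+ G →+ ℝ) (hB : ∀ P, 0 ≤ B P P) (hs : ∀ P Q, B P Q = B Q P)
    {ι : Type*} [Fintype ι] (P : ι → G) :
    ∃ v : ι → EuclideanSpace ℝ ι, ∀ m : ι → ℤ,
      ‖∑ i, (m i : ℝ) • v i‖ ^ 2 = B (∑ i, m i • P i) (∑ i, m i • P i) := by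
  classical
  let A : Matrix ι ι ℝ := Matrix.of fun i j => B (P i) (P j)
  have hA : A.PosSemidef := by
    rw [Matrix.posSemidef_iff_dotProduct_mulVec]
    refine ⟨?_, ?_⟩
    · ext i j
      simp [A, hs (P j) (P i)]
    · intro x
      have h0 := psd_of_int (fun i j => B (P i) (P j)) (fun m => by
        rw [← sum_bilin B P m]; exact hB _) x
      have e : star x ⬝ᵥ A *ᵥ x = ∑ i, ∑ j, x i * x j * B (P i) (P j) := by
        simp only [dotProduct, Matrix.mulVec, A, Matrix.of_apply, Pi.star_apply, star_trivial]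
        refine Finset.sum_congr rfl fun i _ => ?_
        rw [Finset.mul_sum]
        refine Finset.sum_congr rfl fun j _ => ?_
        ring
      rw [e]
      exact h0
  obtain ⟨C, hC⟩ := CStarAlgebra.nonneg_iff_eq_star_mul_self.mp hA.nonneg
  refine ⟨fun i => WithLp.toLp 2 (fun k => C k i), fun m => ?_⟩
  rw [sum_bilin, EuclideanSpace.norm_sq_eq]
  have e1 : ∀ i j, B (P i) (P j) = ∑ k, C k i * C k j := by
    intro i j
    have := congrFun (congrFun hC i) j
    simp only [A, Matrix.of_apply, Matrix.mul_apply, Matrix.star_apply, star_trivial] at this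
    exact this
  simp_rw [e1]
  have e2 : ∀ k, (∑ i, (m i : ℝ) • (WithLp.toLp 2 (fun k => C k i) : EuclideanSpace ℝ ι)) k
      = ∑ i, (m i : ℝ) * C k i := by
    intro k
    simp
  simp_rw [e2, Real.norm_eq_abs, sq_abs]
  simp_rw [sq, Finset.sum_mul_sum, Finset.mul_sum]
  rw [Finset.sum_comm]
  refine Finset.sum_congr rfl fun i _ => ?_
  rw [Finset.sum_comm]
  refine Finset.sum_congr rfl fun j _ => ?_
  refine Finset.sum_congr rfl fun k _ => ?_
  ring

end Pool.Agent.RB
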