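import Mathlib

/-!
# Packing bounds and Gram matrices
-/

namespace Pool.Agent.RB

open MeasureTheory Module Metric Set Function
open scoped ENNReal

/-- The volume bound for separated families. -/
theorem pack {E : Type*} [NormedAddCommGroup E] [NormedSpace ℝ E] [FiniteDimensional ℝ E]
    {ι : Type*} [Fintype ι] (v : ι → E) {R s : ℝ} (hR : 0 ≤ R) (hs : 0 < s) (hv : ∀ i, ‖v i‖ ≤ R)
    (h : ∀ i j, i ≠ j → s ≤ ‖v i - v j‖) :
    (Fintype.card ι : ℝ) ≤ (1 + 2 * R / s) ^ finrank ℝ E := by
  borelize E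
  let μ : Measure E := Measure.addHaar
  let δ : ℝ := s / 2
  let ρ : ℝ := R + s / 2
  have δpos : 0 < δ := by positivity
  have ρpos : 0 < ρ := by positivity
  set A := ⋃ c, ball (v c : E) δ with hA
  have D : Pairwise (Disjoint on fun c => ball (v c : E) δ) := by
    rintro c d hcd
    apply ball_disjoint_ball
    rw [dist_eq_norm]
    have := h c d hcd
    simp only [δ]
    linarith
  have A_subset : A ⊆ ball (0 : E) ρ := by
    refine iUnion_subset fun x => ?_
    apply ball_subset_ball'
    rw [dist_zero_right]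
    have := hv x
    simp only [δ, ρ]
    linarith
  have I :
    (Fintype.card ι : ℝ≥0∞) * ENNReal.ofReal (δ ^ finrank ℝ E) * μ (ball 0 1) ≤
      ENNReal.ofReal (ρ ^ finrank ℝ E) * μ (ball 0 1) :=
    calc
      (Fintype.card ι : ℝ≥0∞) * ENNReal.ofReal (δ ^ finrank ℝ E) * μ (ball 0 1) = μ A := by
        rw [hA, measure_iUnion D fun c => measurableSet_ball]
        simp only [μ.addHaar_ball_of_pos _ δpos]
        rw [tsum_fintype]
        simp only [Finset.sum_const, nsmul_eq_mul, mul_assoc, Finset.card_univ]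
      _ ≤ μ (ball (0 : E) ρ) := measure_mono A_subset
      _ = ENNReal.ofReal (ρ ^ finrank ℝ E) * μ (ball 0 1) := by
        simp only [μ.addHaar_ball_of_pos _ ρpos]
  have J : (Fintype.card ι : ℝ≥0∞) * ENNReal.ofReal (δ ^ finrank ℝ E) ≤
      ENNReal.ofReal (ρ ^ finrank ℝ E) :=
    (ENNReal.mul_le_mul_iff_left (measure_ball_pos _ _ zero_lt_one).ne' measure_ball_lt_top.ne).1 I
  have K := ENNReal.toReal_le_of_le_ofReal (pow_nonneg ρpos.le _) J
  rw [ENNReal.toReal_mul, ENNReal.toReal_ofReal (pow_nonneg δpos.le _), ENNReal.toReal_natCast] at K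
  have e : 1 + 2 * R / s = ρ / δ := by
    simp only [ρ, δ]
    field_simp
    ring
  rw [e, div_pow, le_div_iff₀ (pow_pos δpos _)]
  exact K

/-- A family with small clusters is not much larger than a separated one. -/
theorem cluster {E : Type*} [NormedAddCommGroup E] [NormedSpace ℝ E] [FiniteDimensional ℝ E]
    {ι : Type*} [Fintype ι] (v : ι → E) {R ρ : ℝ} (hR : 0 ≤ R) (hρ : 0 < ρ)
    (hv : ∀ i, ‖v i‖ ≤ R) (k : ℕ)
    (h : ∀ T : Finset ι, (∀ i ∈ T, ∀ j ∈ T, ‖v i - v j‖ ≤ 2 * ρ) → T.card ≤ k) :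
    (Fintype.card ι : ℝ) ≤ k * (1 + 2 * R / ρ) ^ finrank ℝ E := by
  classical
  -- a maximal separated subset
  let Sep : Finset (Finset ι) := Finset.univ.filter
    (fun T => ∀ i ∈ T, ∀ j ∈ T, i ≠ j → ρ ≤ ‖v i - v j‖)
  have hne : Sep.Nonempty := ⟨∅, by simp [Sep]⟩
  obtain ⟨T, hT, hmax⟩ := Finset.exists_max_image Sep Finset.card hne
  have hT' : ∀ i ∈ T, ∀ j ∈ T, i ≠ j → ρ ≤ ‖v i - v j‖ := (Finset.mem_filter.mp hT).2
  have hcov : ∀ i : ι, ∃ t ∈ T, ‖v i - v t‖ < ρ := by
    intro i
    by_contra hcon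
    push Not at hcon
    have hi : i ∉ T := fun hi => by
      have := hcon i hi
      rw [sub_self, norm_zero] at this
      linarith
    have : insert i T ∈ Sep := by
      refine Finset.mem_filter.mpr ⟨Finset.mem_univ _, ?_⟩
      intro a ha b hb hab
      rcases Finset.mem_insert.mp ha with rfl | ha'
      · rcases Finset.mem_insert.mp hb with rfl | hb'
        · exact absurd rfl hab
        · exact hcon b hb'
      · rcases Finset.mem_insert.mp hb with rfl | hb'
        · rw [norm_sub_rev]; exact hcon a ha'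
        · exact hT' a ha' b hb' hab
    have h2 := hmax _ this
    rw [Finset.card_insert_of_notMem hi] at h2
    omega
  have hcard : Fintype.card ι ≤ T.card * k := by
    have hsub : (Finset.univ : Finset ι) ⊆
        T.biUnion (fun t => Finset.univ.filter (fun i => ‖v i - v t‖ < ρ)) := by
      intro i _
      obtain ⟨t, ht, hit⟩ := hcov i
      exact Finset.mem_biUnion.mpr ⟨t, ht, Finset.mem_filter.mpr ⟨Finset.mem_univ _, hit⟩⟩
    calc Fintype.card ι = (Finset.univ : Finset ι).card := rfl
      _ ≤ _ := Finset.card_le_card hsub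
      _ ≤ T.card * k := by
        apply Finset.card_biUnion_le_card_mul
        intro t _
        apply h
        intro i hi j hj
        have h1 := (Finset.mem_filter.mp hi).2
        have h2 := (Finset.mem_filter.mp hj).2
        have e : v i - v j = (v i - v t) - (v j - v t) := by abel
        rw [e]
        calc _ ≤ ‖v i - v t‖ + ‖v j - v t‖ := norm_sub_le _ _
          _ ≤ 2 * ρ := by linarith
  have hp := pack (fun t : T => v t) hR hρ (fun t => hv _) (fun i j hij =>
    hT' _ i.2 _ j.2 (fun e => hij (Subtype.ext e)))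
  rw [Fintype.card_coe] at hp
  calc (Fintype.card ι : ℝ) ≤ ((T.card * k : ℕ) : ℝ) := by exact_mod_cast hcard
    _ = k * T.card := by push_cast; ring
    _ ≤ _ := by gcongr

end Pool.Agent.RB
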