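import Pool.Agent.Lib_helper21.RB.Sol
import Pool.Agent.Lib_helper21.RB.Pack
import Pool.Agent.Lib_helper21.RB.CS

/-!
# Differences of two fourth powers and the rank of `y² = x³ - D² x`
-/

namespace Pool.Agent.RB

open Module

/-- The height vectors of finitely many points, in the form used below. -/
theorem height_vectors' {G : Type*} [AddCommGroup G] (h : G → ℝ) (C : ℝ) (h0 : ∀ P, 0 ≤ h P)
    (hpar : ∀ P Q : G, |h (P + Q) + h (P - Q) - 2 * h P - 2 * h Q| ≤ C)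
    {ι : Type*} [Fintype ι] (P : ι → G) :
    ∃ (n : ℕ) (w : Fin n → G) (v : ι → EuclideanSpace ℝ (Fin n)), LinearIndependent ℤ w ∧
      (∀ i, |‖v i‖ ^ 2 - h (P i)| ≤ C / 2) ∧
      (∀ i j, |‖v i + v j‖ ^ 2 - h (P i + P j)| ≤ C / 2) ∧
      (∀ i j, |‖v i - v j‖ ^ 2 - h (P i - P j)| ≤ C / 2) := by
  classical
  obtain ⟨n, w, v, hw, hv⟩ := height_vectors h C h0 hpar P
  have s1 : ∀ i, ∑ k, ((Pi.single i 1 : ι → ℤ) k : ℝ) • v k = v i := by
    intro i
    rw [Finset.sum_eq_single i]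
    · simp
    · intro k _ hk
      simp [Pi.single_eq_of_ne hk]
    · simp
  have s2 : ∀ i, ∑ k, (Pi.single i 1 : ι → ℤ) k • P k = P i := by
    intro i
    rw [Finset.sum_eq_single i]
    · simp
    · intro k _ hk
      simp [Pi.single_eq_of_ne hk]
    · simp
  refine ⟨n, w, v, hw, fun i => ?_, fun i j => ?_, fun i j => ?_⟩
  · have := hv (Pi.single i 1)
    rwa [s1, s2] at this
  · have := hv (Pi.single i 1 + Pi.single j 1)
    simp only [Pi.add_apply, Int.cast_add, add_smul, Finset.sum_add_distrib] at this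
    rwa [s1, s1, s2, s2] at this
  · have := hv (Pi.single i 1 - Pi.single j 1)
    simp only [Pi.sub_apply, Int.cast_sub, sub_smul, Finset.sum_sub_distrib] at this
    rwa [s1, s1, s2, s2] at this

/-- The pairs of coprime positive integers `(x, y)` with `x⁴ - y⁴ = r`. -/
def primSol (r : ℕ) : Set (ℕ × ℕ) :=
  {p | 0 < p.1 ∧ 0 < p.2 ∧ Nat.Coprime p.1 p.2 ∧ p.1 ^ 4 = p.2 ^ 4 + r}

lemma le_of_pow_four {x y r : ℕ} (hr : 0 < r) (h : x ^ 4 = y ^ 4 + r) : x ≤ r ∧ y ≤ r := by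
  have hlt : y < x := lt_of_pow_lt_pow_left₀ 4 (Nat.zero_le _) (by omega)
  have h2 : y ^ 4 ≤ (x - 1) ^ 4 := Nat.pow_le_pow_left (by omega) 4
  obtain ⟨m, rfl⟩ : ∃ m, x = m + 1 := ⟨x - 1, by omega⟩
  have h3 : (m + 1 - 1) = m := rfl
  rw [h3] at h2
  have h4 : (m + 1) ^ 4 = m ^ 4 + (m + 1) + (4 * m ^ 3 + 6 * m ^ 2 + 3 * m) := by ring
  omega

lemma finite_of_subset {r : ℕ} (hr : 0 < r) {S : Set (ℕ × ℕ)}
    (hS : ∀ p ∈ S, p.1 ^ 4 = p.2 ^ 4 + r) : S.Finite ∧ S.ncard ≤ (r + 1) ^ 2 := by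
  have hsub : S ⊆ ((Finset.range (r + 1) ×ˢ Finset.range (r + 1) : Finset (ℕ × ℕ)) :
      Set (ℕ × ℕ)) := by
    intro p hp
    obtain ⟨h1, h2⟩ := le_of_pow_four hr (hS p hp)
    simp only [Finset.coe_product, Finset.coe_range, Set.mem_prod, Set.mem_Iio]
    omega
  refine ⟨(Finset.finite_toSet _).subset hsub, ?_⟩
  have := Set.ncard_le_ncard hsub (Finset.finite_toSet _)
  rw [Set.ncard_coe_finset, Finset.card_product, Finset.card_range] at this
  rw [sq]; exact this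

theorem ten_thirds {L C : ℝ} (hC : 0 ≤ C) (hL : 400 * (C + 1) ≤ L) :
    0 < √(1 / 2 * L - Real.log 2 - C) ∧
      1 + 2 * √(2 / 3 * L + C) / √(1 / 2 * L - Real.log 2 - C) ≤ 10 / 3 := by
  have hlog : Real.log 2 ≤ 1 := by
    have := Real.log_two_lt_d9
    linarith
  have hlog0 : 0 ≤ Real.log 2 := Real.log_nonneg (by norm_num)
  have hs : 0 < 1 / 2 * L - Real.log 2 - C := by linarith
  have hs' : 0 < √(1 / 2 * L - Real.log 2 - C) := Real.sqrt_pos.mpr hs
  refine ⟨hs', ?_⟩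
  have h1 : √(2 / 3 * L + C) ≤ 7 / 6 * √(1 / 2 * L - Real.log 2 - C) := by
    rw [Real.sqrt_le_left (by positivity), mul_pow, Real.sq_sqrt hs.le]
    linarith
  have h2 : 2 * √(2 / 3 * L + C) / √(1 / 2 * L - Real.log 2 - C) ≤ 7 / 3 := by
    rw [div_le_iff₀ hs']
    linarith
  linarith

/-- Coprime solutions. -/
theorem coprime_bound : ∃ r₀ : ℕ, ∀ D w : ℕ, 0 < D → r₀ ≤ D * w ^ 2 →
    ∃ (n : ℕ) (P : Fin n → Pt (D : ℚ)), LinearIndependent ℤ P ∧
      2 * ((primSol (D * w ^ 2)).ncard : ℝ) ≤ (10 / 3) ^ n := by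
  classical
  obtain ⟨C, hC⟩ := parallelogram
  have hC0 : 0 ≤ C := (abs_nonneg _).trans (hC 1 one_ne_zero 0 0)
  obtain ⟨r₀, hr₀⟩ := exists_nat_gt (Real.exp (400 * (C / 2 + 1)))
  refine ⟨r₀, fun D w hD hr => ?_⟩
  have hrexp : Real.exp (400 * (C / 2 + 1)) < ((D * w ^ 2 : ℕ) : ℝ) :=
    hr₀.trans_le (by exact_mod_cast hr)
  have hrpos : 0 < D * w ^ 2 := by
    have : (0 : ℝ) < ((D * w ^ 2 : ℕ) : ℝ) := (Real.exp_pos _).trans hrexp
    exact_mod_cast this
  have hw : 0 < w := by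
    rcases Nat.eq_zero_or_pos w with rfl | h
    · simp at hrpos
    · exact h
  set L := Real.log ((D * w ^ 2 : ℕ) : ℝ) with hL
  have hLb : 400 * (C / 2 + 1) ≤ L := by
    rw [hL, Real.le_log_iff_exp_le (by exact_mod_cast hrpos)]
    exact hrexp.le
  obtain ⟨hfin, -⟩ := finite_of_subset hrpos (S := primSol (D * w ^ 2)) (fun p hp => hp.2.2.2)
  let ι := hfin.toFinset
  have hsol : ∀ p : ι, IsSol D p.1.1 p.1.2 w := by
    intro p
    have hp := hfin.mem_toFinset.mp p.2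
    exact ⟨hD, hp.1, hp.2.1, hw, hp.2.2.1, hp.2.2.2⟩
  have hDq : (D : ℚ) ≠ 0 := by positivity
  obtain ⟨n, P, v, hP, v1, v2, v3⟩ := height_vectors' (G := Pt (D : ℚ)) hn C hn_nonneg (hC D hDq)
    (fun p : ι => (hsol p).pt)
  refine ⟨n, P, hP, ?_⟩
  obtain ⟨hs, h103⟩ := ten_thirds (by positivity : 0 ≤ C / 2) hLb
  set s := √(1 / 2 * L - Real.log 2 - C / 2)
  set R := √(2 / 3 * L + C / 2)
  have hlog0 : 0 ≤ Real.log 2 := Real.log_nonneg (by norm_num)
  have hlow : ∀ x : ℝ, 0 ≤ x → 1 / 2 * L - Real.log 2 - C / 2 ≤ x ^ 2 → s ≤ x := by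
    intro x hx h
    exact (Real.sqrt_le_left hx).mpr h
  have hnorm : ∀ i, ‖v i‖ ≤ R := by
    intro i
    apply Real.le_sqrt_of_sq_le
    have h1 := (abs_le.mp (v1 i)).2
    have h2 := (hsol i).hn_le
    linarith
  have hnorm2 : ∀ i, s ≤ ‖v i‖ := by
    intro i
    apply hlow _ (norm_nonneg _)
    have h1 := (abs_le.mp (v1 i)).1
    have h2 := (hsol i).le_hn
    linarith
  have hgcd : ∀ i j : ι, i ≠ j → 1 / 2 * L - Real.log 2 ≤ hn ((hsol i).pt + (hsol j).pt) ∧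
      1 / 2 * L - Real.log 2 ≤ hn ((hsol i).pt - (hsol j).pt) := by
    intro i j hij
    have hne : (i.1.1, i.1.2) ≠ (j.1.1, j.1.2) := fun h => hij (Subtype.ext h)
    have := repulsion (hsol i) (hsol j) hne
    rw [Nat.gcd_self] at this
    exact this
  let u : ι × Bool → EuclideanSpace ℝ (Fin n) := fun q => if q.2 then v q.1 else -v q.1
  have hu : ∀ q, ‖u q‖ ≤ R := by
    rintro ⟨i, b⟩
    cases b <;> simp [u, hnorm i]
  have hsep : ∀ q q', q ≠ q' → s ≤ ‖u q - u q'‖ := by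
    rintro ⟨i, b⟩ ⟨j, b'⟩ hq
    by_cases hij : i = j
    · subst hij
      have hb : b ≠ b' := fun h => hq (by rw [h])
      have : ‖u (i, b) - u (i, b')‖ = 2 * ‖v i‖ := by
        cases b <;> cases b'
        · exact absurd rfl hb
        · have e : u (i, false) - u (i, true) = (-2 : ℝ) • v i := by
            simp only [u, Bool.false_eq_true, if_false, if_true]
            rw [neg_smul, two_smul]; abel
          rw [e, norm_smul]; norm_num
        · have e : u (i, true) - u (i, false) = (2 : ℝ) • v i := by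
            simp only [u, Bool.false_eq_true, if_false, if_true]
            rw [two_smul]; abel
          rw [e, norm_smul]; norm_num
        · exact absurd rfl hb
      rw [this]
      have := hnorm2 i
      have := norm_nonneg (v i)
      linarith
    · obtain ⟨g1, g2⟩ := hgcd i j hij
      have a1 : s ≤ ‖v i + v j‖ := by
        apply hlow _ (norm_nonneg _)
        have h1 := (abs_le.mp (v2 i j)).1
        linarith
      have a2 : s ≤ ‖v i - v j‖ := by
        apply hlow _ (norm_nonneg _)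
        have h1 := (abs_le.mp (v3 i j)).1
        linarith
      cases b <;> cases b'
      · have : u (i, false) - u (j, false) = -(v i - v j) := by simp [u]; abel
        rw [this, norm_neg]; exact a2
      · have : u (i, false) - u (j, true) = -(v i + v j) := by simp [u]; abel
        rw [this, norm_neg]; exact a1
      · have : u (i, true) - u (j, false) = v i + v j := by simp [u]
        rw [this]; exact a1
      · have : u (i, true) - u (j, true) = v i - v j := by simp [u]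
        rw [this]; exact a2
  have hp := pack u (Real.sqrt_nonneg _) hs hu hsep
  rw [finrank_euclideanSpace_fin] at hp
  have hcard : (Fintype.card (ι × Bool) : ℝ) = 2 * ((primSol (D * w ^ 2)).ncard : ℝ) := by
    rw [Fintype.card_prod, Fintype.card_bool, Fintype.card_coe, Set.ncard_eq_toFinset_card _ hfin]
    push_cast; ring
  rw [hcard] at hp
  refine hp.trans (pow_le_pow_left₀ ?_ h103 n)
  have : 0 ≤ 2 * R / s := by positivity
  linarith

/-- The pairs of positive integers `(x, y)` with `x⁴ - y⁴ = r` and `gcd(x, y)⁴ ≤ r ^ (1 - δ)`. -/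
def bigSol (δ : ℝ) (r : ℕ) : Set (ℕ × ℕ) :=
  {p | 0 < p.1 ∧ 0 < p.2 ∧ p.1 ^ 4 = p.2 ^ 4 + r ∧
    ((Nat.gcd p.1 p.2 : ℕ) : ℝ) ^ 4 ≤ (r : ℝ) ^ (1 - δ)}

lemma dvd_of_sq_dvd {D a w : ℕ} (hD : Squarefree D) (ha : 0 < a) (h : a ^ 2 ∣ D * w ^ 2) :
    a ∣ w := by
  obtain ⟨a', w', hc, h1, h2⟩ := Nat.exists_coprime a w
  set d := Nat.gcd a w
  have hd : 0 < d := Nat.gcd_pos_of_pos_left _ ha
  have h3 : a' ^ 2 ∣ D * w' ^ 2 := by
    have : a' ^ 2 * d ^ 2 ∣ D * w' ^ 2 * d ^ 2 := by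
      have e1 : a' ^ 2 * d ^ 2 = a ^ 2 := by rw [h1]; ring
      have e2 : D * w' ^ 2 * d ^ 2 = D * w ^ 2 := by rw [h2]; ring
      rw [e1, e2]; exact h
    exact Nat.dvd_of_mul_dvd_mul_right (by positivity) this
  have h4 : a' ^ 2 ∣ D := (Nat.Coprime.pow 2 2 hc).dvd_of_dvd_mul_right h3
  rw [sq] at h4
  have h5 := hD _ h4
  rw [Nat.isUnit_iff] at h5
  rw [h5, one_mul] at h1
  rw [h1]
  exact Nat.gcd_dvd_right _ _

/-- The primitive solution below a solution. -/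
lemma exists_prim {D w x y : ℕ} (hD : Squarefree D) (hw : 0 < w) (hx : 0 < x) (hy : 0 < y)
    (h : x ^ 4 = y ^ 4 + D * w ^ 2) :
    ∃ X Y z : ℕ, IsSol D X Y z ∧ x = Nat.gcd x y * X ∧ y = Nat.gcd x y * Y ∧
      D * w ^ 2 = (Nat.gcd x y) ^ 4 * (D * z ^ 2) := by
  have hD0 : 0 < D := Nat.pos_of_ne_zero hD.ne_zero
  obtain ⟨X, Y, hc, h1, h2⟩ := Nat.exists_coprime x y
  set g := Nat.gcd x y with hg
  have hg0 : 0 < g := Nat.gcd_pos_of_pos_left _ hx
  have hX : 0 < X := by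
    rcases Nat.eq_zero_or_pos X with rfl | hX
    · simp at h1; omega
    · exact hX
  have hY : 0 < Y := by
    rcases Nat.eq_zero_or_pos Y with rfl | hY
    · simp at h2; omega
    · exact hY
  have h3 : (g ^ 2) ^ 2 ∣ D * w ^ 2 := by
    have e : (g ^ 2) ^ 2 = g ^ 4 := by ring
    rw [e]
    have d1 : g ^ 4 ∣ x ^ 4 := pow_dvd_pow_of_dvd (Nat.gcd_dvd_left _ _) 4
    have d2 : g ^ 4 ∣ y ^ 4 := pow_dvd_pow_of_dvd (Nat.gcd_dvd_right _ _) 4
    rw [h] at d1
    exact (Nat.dvd_add_right d2).mp d1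
  obtain ⟨z, hz⟩ := dvd_of_sq_dvd hD (by positivity) h3
  have hz0 : 0 < z := by
    rcases Nat.eq_zero_or_pos z with rfl | hz0
    · simp at hz; omega
    · exact hz0
  have h4 : X ^ 4 = Y ^ 4 + D * z ^ 2 := by
    have : g ^ 4 * X ^ 4 = g ^ 4 * (Y ^ 4 + D * z ^ 2) := by
      calc g ^ 4 * X ^ 4 = (X * g) ^ 4 := by ring
        _ = x ^ 4 := by rw [← h1]
        _ = y ^ 4 + D * w ^ 2 := h
        _ = (Y * g) ^ 4 + D * (g ^ 2 * z) ^ 2 := by rw [← h2, ← hz]
        _ = _ := by ring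
    exact Nat.eq_of_mul_eq_mul_left (by positivity) this
  refine ⟨X, Y, z, ⟨hD0, hX, hY, hz0, hc, h4⟩, by rw [mul_comm]; exact h1,
    by rw [mul_comm]; exact h2, ?_⟩
  rw [hz]; ring

/-- Solutions with a large primitive part. -/
theorem big_bound (δ : ℝ) (hδ : 0 < δ) : ∃ C : ℝ, ∀ D w : ℕ, Squarefree D →
    0 < w → ∃ (n : ℕ) (P : Fin n → Pt (D : ℚ)), LinearIndependent ℤ P ∧
      ((bigSol δ (D * w ^ 2)).ncard : ℝ) ≤ C ^ (n + 1) := by
  classical
  obtain ⟨C, hC⟩ := parallelogram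
  have hC0 : 0 ≤ C := (abs_nonneg _).trans (hC 1 one_ne_zero 0 0)
  have hlog0 : 0 ≤ Real.log 2 := Real.log_nonneg (by norm_num)
  -- threshold
  let L₁ : ℝ := 3 * C + 1 + (4 * (C + 2 * Real.log 2)) / δ ^ 2
  have hL₁ : 0 < L₁ := by positivity
  obtain ⟨r₁, hr₁⟩ := exists_nat_gt (Real.exp L₁)
  let K : ℝ := max ((r₁ : ℝ) + 1) ((2 / δ ^ 2 + 1) + (1 + 12 / δ)) ^ 2
  have hm1 : 1 ≤ max ((r₁ : ℝ) + 1) ((2 / δ ^ 2 + 1) + (1 + 12 / δ)) := by
    refine le_trans ?_ (le_max_left _ _)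
    have : (0 : ℝ) ≤ r₁ := Nat.cast_nonneg _
    linarith
  have hK1 : 1 ≤ K := one_le_pow₀ hm1
  refine ⟨K, fun D w hD hw => ?_⟩
  have hD0 : 0 < D := Nat.pos_of_ne_zero hD.ne_zero
  have hrpos : 0 < D * w ^ 2 := by positivity
  obtain ⟨hfin, hcard0⟩ := finite_of_subset hrpos (S := bigSol δ (D * w ^ 2))
    (fun p hp => hp.2.2.1)
  by_cases hsmall : D * w ^ 2 ≤ r₁
  · refine ⟨0, Fin.elim0, linearIndependent_empty_type, ?_⟩
    rw [zero_add, pow_one]
    calc ((bigSol δ (D * w ^ 2)).ncard : ℝ) ≤ (((D * w ^ 2 + 1) ^ 2 : ℕ) : ℝ) := by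
          exact_mod_cast hcard0
      _ ≤ ((r₁ : ℝ) + 1) ^ 2 := by
          push_cast
          have : ((D * w ^ 2 : ℕ) : ℝ) ≤ r₁ := by exact_mod_cast hsmall
          push_cast at this
          gcongr
      _ ≤ K := by
          apply pow_le_pow_left₀ (by positivity)
          exact le_max_left _ _
  push Not at hsmall
  set r := D * w ^ 2 with hr
  have hrexp : Real.exp L₁ < (r : ℝ) := hr₁.trans (by exact_mod_cast hsmall)
  set L := Real.log (r : ℝ) with hL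
  have hLb : L₁ ≤ L := by
    rw [hL, Real.le_log_iff_exp_le (by exact_mod_cast hrpos)]
    exact hrexp.le
  have hL0 : 0 < L := hL₁.trans_le hLb
  have hr1 : 1 < r := by
    by_contra hcon
    have : (r : ℝ) ≤ 1 := by exact_mod_cast not_lt.mp hcon
    have := Real.log_nonpos (Nat.cast_nonneg _) this
    linarith
  let ι := hfin.toFinset
  have hprim : ∀ p : ι, ∃ X Y z : ℕ, IsSol D X Y z ∧ p.1.1 = Nat.gcd p.1.1 p.1.2 * X ∧
      p.1.2 = Nat.gcd p.1.1 p.1.2 * Y ∧ r = (Nat.gcd p.1.1 p.1.2) ^ 4 * (D * z ^ 2) := by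
    intro p
    have hp := hfin.mem_toFinset.mp p.2
    exact exists_prim hD hw hp.1 hp.2.1 hp.2.2.1
  choose X Y z hsol hX hY hg using hprim
  have hDq : (D : ℚ) ≠ 0 := by positivity
  obtain ⟨n, P, v, hP, v1, -, v3⟩ := height_vectors' (G := Pt (D : ℚ)) hn C hn_nonneg (hC D hDq)
    (fun p : ι => (hsol p).pt)
  refine ⟨n, P, hP, ?_⟩
  have hne : ∀ i j : ι, i ≠ j → (X i, Y i) ≠ (X j, Y j) := by
    intro i j hij h
    apply hij
    have hXX : X i = X j := (Prod.mk.inj h).1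
    have hYY : Y i = Y j := (Prod.mk.inj h).2
    have e1 := (hsol i).eq
    have e2 := (hsol j).eq
    rw [hXX, hYY] at e1
    have e3 : D * z i ^ 2 = D * z j ^ 2 := by omega
    have e4 : (Nat.gcd i.1.1 i.1.2) ^ 4 * (D * z i ^ 2) =
        (Nat.gcd j.1.1 j.1.2) ^ 4 * (D * z i ^ 2) := by
      rw [← hg i, e3, ← hg j]
    have hz := (hsol i).hz
    have e5 := Nat.eq_of_mul_eq_mul_right (by positivity) e4
    have e6 : Nat.gcd i.1.1 i.1.2 = Nat.gcd j.1.1 j.1.2 :=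
      Nat.pow_left_injective (n := 4) (by norm_num) e5
    apply Subtype.ext
    apply Prod.ext
    · rw [hX i, hX j, e6, hXX]
    · rw [hY i, hY j, e6, hYY]
  have hdvd : ∀ i : ι, D * z i ^ 2 ∣ r := fun i => Dvd.intro_left _ (hg i).symm
  have hpos : ∀ i : ι, 0 < D * z i ^ 2 := by
    intro i
    have := (hsol i).hz
    positivity
  have hlarge : ∀ i : ι, δ * L ≤ Real.log ((D * z i ^ 2 : ℕ) : ℝ) := by
    intro i
    have hp := hfin.mem_toFinset.mp i.2
    have h4 := hp.2.2.2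
    have h5 : (r : ℝ) = ((Nat.gcd i.1.1 i.1.2 : ℕ) : ℝ) ^ 4 * ((D * z i ^ 2 : ℕ) : ℝ) := by
      exact_mod_cast hg i
    have hgpos : (0 : ℝ) < ((Nat.gcd i.1.1 i.1.2 : ℕ) : ℝ) := by
      have : 0 < Nat.gcd i.1.1 i.1.2 := Nat.gcd_pos_of_pos_left _ hp.1
      exact_mod_cast this
    have hzpos : (0 : ℝ) < ((D * z i ^ 2 : ℕ) : ℝ) := by exact_mod_cast hpos i
    have h6 : L = Real.log (((Nat.gcd i.1.1 i.1.2 : ℕ) : ℝ) ^ 4) +
        Real.log ((D * z i ^ 2 : ℕ) : ℝ) := by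
      rw [hL, h5, Real.log_mul (by positivity) hzpos.ne']
    have h7 : Real.log (((Nat.gcd i.1.1 i.1.2 : ℕ) : ℝ) ^ 4) ≤ (1 - δ) * L := by
      rw [hL, ← Real.log_rpow (by exact_mod_cast hrpos)]
      exact Real.log_le_log (by positivity) h4
    linarith
  -- radii
  set R := √L
  set ρ := δ * √L / 6
  have hsL : 0 < √L := Real.sqrt_pos.mpr hL0
  have hρ : 0 < ρ := by positivity
  have hv : ∀ i, ‖v i‖ ≤ R := by
    intro i
    apply Real.le_sqrt_of_sq_le
    have h1 := (abs_le.mp (v1 i)).2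
    have h2 := (hsol i).hn_le
    have h3 : Real.log ((D * z i ^ 2 : ℕ) : ℝ) ≤ L := by
      apply Real.log_le_log (by exact_mod_cast hpos i)
      exact_mod_cast Nat.le_of_dvd hrpos (hdvd i)
    have h4 : 3 * C + 1 ≤ L := by
      refine le_trans ?_ hLb
      have : 0 ≤ (4 * (C + 2 * Real.log 2)) / δ ^ 2 := by positivity
      simp only [L₁]; linarith
    linarith
  have hcl := cluster v (Real.sqrt_nonneg L) hρ hv ⌊2 / δ ^ 2⌋₊ (fun T hT => by
    have hη : ∀ i ∈ T, ∀ j ∈ T, i ≠ j →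
        Real.log (Nat.gcd (D * z i ^ 2) (D * z j ^ 2) : ℕ) ≤ (δ ^ 2 / 2) * Real.log r := by
      intro i hi j hj hij
      have h1 := (repulsion (hsol i) (hsol j) (hne i j hij)).2
      have h2 := (abs_le.mp (v3 i j)).1
      have h3 := hT i hi j hj
      have h4 : ‖v i - v j‖ ^ 2 ≤ (2 * ρ) ^ 2 := pow_le_pow_left₀ (norm_nonneg _) h3 2
      have h5 : (2 * ρ) ^ 2 = δ ^ 2 * L / 9 := by
        simp only [ρ]
        have : (2 * (δ * √L / 6)) ^ 2 = δ ^ 2 * (√L ^ 2) / 9 := by ring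
        rw [this, Real.sq_sqrt hL0.le]
      have h6 : 4 * (C + 2 * Real.log 2) ≤ δ ^ 2 * L := by
        have : (4 * (C + 2 * Real.log 2)) / δ ^ 2 ≤ L := by
          refine le_trans ?_ hLb
          simp only [L₁]; linarith
        rw [div_le_iff₀ (by positivity)] at this
        linarith
      rw [← hL]
      rw [h5] at h4
      linarith
    have h7 := few_divisors hr1 T (fun i => D * z i ^ 2) (fun i _ => hdvd i)
      (fun i _ => by rw [← hL]; exact hlarge i) hδ.le hη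
    have hδ2 : 0 < δ ^ 2 := by positivity
    rcases h7 with h7 | h7
    · apply Nat.le_floor
      rw [le_div_iff₀ hδ2]
      linarith
    · linarith)
  rw [finrank_euclideanSpace_fin] at hcl
  have hcard : (Fintype.card ι : ℝ) = ((bigSol δ r).ncard : ℝ) := by
    rw [Fintype.card_coe, Set.ncard_eq_toFinset_card _ hfin]
  rw [hcard] at hcl
  have e1 : 1 + 2 * R / ρ = 1 + 12 / δ := by
    simp only [R, ρ]
    field_simp
    norm_num
  rw [e1] at hcl
  have hfl : ((⌊2 / δ ^ 2⌋₊ : ℕ) : ℝ) ≤ 2 / δ ^ 2 := Nat.floor_le (by positivity)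
  set m := max ((r₁ : ℝ) + 1) ((2 / δ ^ 2 + 1) + (1 + 12 / δ)) with hm
  have hm2 : (2 / δ ^ 2 + 1) + (1 + 12 / δ) ≤ m := le_max_right _ _
  have hp1 : 0 < 2 / δ ^ 2 := by positivity
  have hp2 : 0 < 12 / δ := by positivity
  have hmK : m ≤ K := by
    simp only [K]
    rw [sq]
    nlinarith
  calc ((bigSol δ r).ncard : ℝ) ≤ ((⌊2 / δ ^ 2⌋₊ : ℕ) : ℝ) * (1 + 12 / δ) ^ n := hcl
    _ ≤ m * m ^ n := by
        apply mul_le_mul
        · linarith
        · apply pow_le_pow_left₀ (by positivity)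
          linarith
        · positivity
        · linarith
    _ = m ^ (n + 1) := by ring
    _ ≤ K ^ (n + 1) := pow_le_pow_left₀ (by linarith) hmK _

end Pool.Agent.RB
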