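import Mathlib

/-!
# From an approximate parallelogram law to a quadratic form
-/

namespace Pool.Agent.RB

open Filter Topology

variable {G : Type*} [AddCommGroup G]

/-- Tate's limit. -/
theorem exists_quadratic (h : G → ℝ) (C : ℝ)
    (hpar : ∀ P Q : G, |h (P + Q) + h (P - Q) - 2 * h P - 2 * h Q| ≤ C) :
    ∃ q : G → ℝ, (∀ P Q : G, q (P + Q) + q (P - Q) = 2 * q P + 2 * q Q) ∧
      ∀ P, |q P - h P| ≤ C / 2 := by
  have h0 : |h 0| ≤ C / 2 := by
    have := hpar 0 0
    simp only [add_zero, sub_zero] at this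
    have h2 : h 0 + h 0 - 2 * h 0 - 2 * h 0 = -(2 * h 0) := by ring
    rw [h2, abs_neg, abs_mul, abs_of_pos (by norm_num : (0:ℝ) < 2)] at this
    linarith
  have hC : 0 ≤ C := by have := abs_nonneg (h 0); linarith
  have h2 : ∀ P : G, |h (2 • P) - 4 * h P| ≤ 3 * C / 2 := by
    intro P
    have := hpar P P
    rw [sub_self, ← two_nsmul] at this
    have e : h (2 • P) - 4 * h P = (h (2 • P) + h 0 - 2 * h P - 2 * h P) - h 0 := by ring
    rw [e]
    calc _ ≤ |h (2 • P) + h 0 - 2 * h P - 2 * h P| + |h 0| := abs_sub _ _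
      _ ≤ C + C / 2 := by gcongr
      _ = 3 * C / 2 := by ring
  let u : G → ℕ → ℝ := fun P n => (1 / 4 : ℝ) ^ n * h ((2 ^ n : ℕ) • P)
  have hstep : ∀ P n, dist (u P n) (u P (n + 1)) ≤ (3 * C / 8) * (1 / 4 : ℝ) ^ n := by
    intro P n
    rw [dist_comm, Real.dist_eq]
    have e : u P (n + 1) - u P n =
        (1 / 4 : ℝ) ^ (n + 1) * (h (2 • ((2 ^ n : ℕ) • P)) - 4 * h ((2 ^ n : ℕ) • P)) := by
      simp only [u]
      rw [pow_succ' 2 n, mul_smul]
      ring
    rw [e, abs_mul, abs_of_pos (by positivity)]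
    calc _ ≤ (1 / 4 : ℝ) ^ (n + 1) * (3 * C / 2) := by
          gcongr
          exact h2 _
      _ = _ := by rw [pow_succ]; ring
  have hcau : ∀ P, CauchySeq (u P) := fun P =>
    cauchySeq_of_le_geometric _ _ (by norm_num) (hstep P)
  choose q hq using fun P => cauchySeq_tendsto_of_complete (hcau P)
  refine ⟨q, ?_, ?_⟩
  · intro P Q
    have hlim : Tendsto (fun n => u (P + Q) n + u (P - Q) n - 2 * u P n - 2 * u Q n) atTop
        (𝓝 (q (P + Q) + q (P - Q) - 2 * q P - 2 * q Q)) :=
      (((hq _).add (hq _)).sub ((hq _).const_mul _)).sub ((hq _).const_mul _)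
    have hzero : Tendsto (fun n => u (P + Q) n + u (P - Q) n - 2 * u P n - 2 * u Q n) atTop
        (𝓝 0) := by
      refine squeeze_zero_norm (a := fun n => (1 / 4 : ℝ) ^ n * C) ?_ ?_
      · intro n
        have := hpar ((2 ^ n : ℕ) • P) ((2 ^ n : ℕ) • Q)
        rw [← smul_add, ← smul_sub] at this
        have e : u (P + Q) n + u (P - Q) n - 2 * u P n - 2 * u Q n = (1 / 4 : ℝ) ^ n *
            (h ((2 ^ n : ℕ) • (P + Q)) + h ((2 ^ n : ℕ) • (P - Q)) - 2 * h ((2 ^ n : ℕ) • P)
              - 2 * h ((2 ^ n : ℕ) • Q)) := by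
          simp only [u]; ring
        rw [Real.norm_eq_abs, e, abs_mul, abs_of_pos (by positivity)]
        gcongr
      · have : Tendsto (fun n : ℕ => (1 / 4 : ℝ) ^ n) atTop (𝓝 0) :=
          tendsto_pow_atTop_nhds_zero_of_lt_one (by norm_num) (by norm_num)
        simpa using this.mul_const C
    have := tendsto_nhds_unique hlim hzero
    linarith
  · intro P
    have := dist_le_of_le_geometric_of_tendsto₀ _ _ (by norm_num) (hstep P) (hq P)
    rw [dist_comm, Real.dist_eq] at this
    simp only [u, pow_zero, one_smul, one_mul] at this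
    calc _ ≤ _ := this
      _ = C / 2 := by norm_num; ring

/-- The bilinear form of a function with the parallelogram law. -/
theorem exists_bilin (q : G → ℝ) (hq : ∀ P Q : G, q (P + Q) + q (P - Q) = 2 * q P + 2 * q Q) :
    ∃ B : G →+ G →+ ℝ, (∀ P, B P P = q P) ∧ ∀ P Q, B P Q = (q (P + Q) - q P - q Q) / 2 := by
  have h0 : q 0 = 0 := by
    have := hq 0 0
    simp only [add_zero, sub_zero] at this
    linarith
  have h2 : ∀ P, q (P + P) = 4 * q P := by
    intro P
    have := hq P P
    rw [sub_self, h0] at this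
    linarith
  have key : ∀ P Q R, q (P + Q + R) = q (P + Q) + q (Q + R) + q (P + R) - q P - q Q - q R := by
    intro P Q R
    have e1 := hq (P + Q) R
    have e2 := hq (P - R) Q
    have e3 := hq P (Q + R)
    have e4 := hq P R
    have a1 : P - R + Q = P + Q - R := by abel
    have a2 : P - R - Q = P - (Q + R) := by abel
    have a3 : P + (Q + R) = P + Q + R := by abel
    rw [a1, a2] at e2
    rw [a3] at e3
    linarith
  let B0 : G → G → ℝ := fun P Q => (q (P + Q) - q P - q Q) / 2
  have hadd2 : ∀ P Q R, B0 P (Q + R) = B0 P Q + B0 P R := by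
    intro P Q R
    simp only [B0]
    rw [← add_assoc, key P Q R]
    ring
  have hsymm : ∀ P Q, B0 P Q = B0 Q P := by
    intro P Q
    simp only [B0]
    rw [add_comm P Q]; ring
  refine ⟨AddMonoidHom.mk' (fun P => AddMonoidHom.mk' (B0 P) (hadd2 P)) ?_, ?_, ?_⟩
  · intro P Q
    ext R
    change B0 (P + Q) R = B0 P R + B0 Q R
    rw [hsymm, hadd2, hsymm P, hsymm Q]
  · intro P
    change (q (P + P) - q P - q P) / 2 = q P
    rw [h2]; ring
  · intro P Q
    rfl

end Pool.Agent.RB
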