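import Pool.Agent.Lib_helper21.RB.HP
import Pool.Agent.Lib_helper21.RB.Arith

/-!
# The points attached to the solutions, and their heights
-/

namespace Pool.Agent.RB

open WeierstrassCurve WeierstrassCurve.Affine Height

section rational

variable {D x1 y1 z1 x2 y2 z2 ε : ℚ}

lemma slope_identity (hD : D ≠ 0) (hy1 : y1 ≠ 0) (hy2 : y2 ≠ 0) (hε : ε ^ 2 = 1)
    (e1 : x1 ^ 4 = y1 ^ 4 + D * z1 ^ 2) (e2 : x2 ^ 4 = y2 ^ 4 + D * z2 ^ 2)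
    (hL : x2 ^ 2 * y1 ^ 2 - x1 ^ 2 * y2 ^ 2 ≠ 0) :
    (((D ^ 2 * z1 * x1 / y1 ^ 3 + ε * (D ^ 2 * z2 * x2 / y2 ^ 3)) /
      (D * x1 ^ 2 / y1 ^ 2 - D * x2 ^ 2 / y2 ^ 2)) ^ 2 - D * x1 ^ 2 / y1 ^ 2
        - D * x2 ^ 2 / y2 ^ 2) / D =
      D * (x1 * y1 * z2 + ε * (x2 * y2 * z1)) ^ 2 /
        (x2 ^ 2 * y1 ^ 2 - x1 ^ 2 * y2 ^ 2) ^ 2 := by
  have hcl : D * (z1 * x1 * y2 ^ 3 + ε * (z2 * x2 * y1 ^ 3)) ^ 2 -
      (x1 ^ 2 * y2 ^ 2 + x2 ^ 2 * y1 ^ 2) * (x2 ^ 2 * y1 ^ 2 - x1 ^ 2 * y2 ^ 2) ^ 2 =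
      D * (x1 * y1 * z2 + ε * (x2 * y2 * z1)) ^ 2 * (y1 * y2) ^ 2 := by
    linear_combination (-y2 ^ 4 * (x1 ^ 2 * y2 ^ 2 - x2 ^ 2 * y1 ^ 2)) * e1 +
      (-y1 ^ 4 * (x2 ^ 2 * y1 ^ 2 - x1 ^ 2 * y2 ^ 2)) * e2 +
      (D * z2 ^ 2 * x2 ^ 2 * y1 ^ 6 - D * x2 ^ 2 * y2 ^ 4 * y1 ^ 2 * z1 ^ 2) * hε
  have hX : D * x1 ^ 2 / y1 ^ 2 - D * x2 ^ 2 / y2 ^ 2 =
      -(D * (x2 ^ 2 * y1 ^ 2 - x1 ^ 2 * y2 ^ 2)) / (y1 ^ 2 * y2 ^ 2) := by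
    field_simp
    ring
  have hY : D ^ 2 * z1 * x1 / y1 ^ 3 + ε * (D ^ 2 * z2 * x2 / y2 ^ 3) =
      D ^ 2 * (z1 * x1 * y2 ^ 3 + ε * (z2 * x2 * y1 ^ 3)) / (y1 ^ 3 * y2 ^ 3) := by
    field_simp
  rw [hX, hY]
  set L := x2 ^ 2 * y1 ^ 2 - x1 ^ 2 * y2 ^ 2 with hLd
  set S := z1 * x1 * y2 ^ 3 + ε * (z2 * x2 * y1 ^ 3)
  set N := x1 * y1 * z2 + ε * (x2 * y2 * z1)
  have hA : (D ^ 2 * S / (y1 ^ 3 * y2 ^ 3) / (-(D * L) / (y1 ^ 2 * y2 ^ 2))) ^ 2 =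
      D ^ 2 * S ^ 2 / (L ^ 2 * y1 ^ 2 * y2 ^ 2) := by
    field_simp
  rw [hA]
  have hS : D * S ^ 2 = D * N ^ 2 * (y1 * y2) ^ 2 +
      (x1 ^ 2 * y2 ^ 2 + x2 ^ 2 * y1 ^ 2) * L ^ 2 := by linear_combination hcl
  have e3 : D ^ 2 * S ^ 2 = D * (D * S ^ 2) := by ring
  rw [e3, hS]
  field_simp
  ring

end rational

lemma IsSol.ratEq {D x y z : ℕ} (s : IsSol D x y z) :
    (x : ℚ) ^ 4 = (y : ℚ) ^ 4 + D * (z : ℚ) ^ 2 := by exact_mod_cast s.eq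

lemma IsSol.nonsing {D x y z : ℕ} (s : IsSol D x y z) :
    (W (D : ℚ)).toAffine.Nonsingular (D * x ^ 2 / y ^ 2) (D ^ 2 * z * x / y ^ 3) := by
  have hD : (D : ℚ) ≠ 0 := by have := s.hD; positivity
  have hy : (y : ℚ) ≠ 0 := by have := s.hy; positivity
  rw [nonsingular_iff' hD]
  have e := s.ratEq
  have : (z : ℚ) ^ 2 = ((x : ℚ) ^ 4 - y ^ 4) / D := by
    field_simp
    linarith
  field_simp
  linear_combination (-(x : ℚ) ^ 2) * e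

/-- The point attached to a solution. -/
noncomputable def IsSol.pt {D x y z : ℕ} (s : IsSol D x y z) : Pt (D : ℚ) :=
  Point.some _ _ s.nonsing

lemma IsSol.lt {D x y z : ℕ} (s : IsSol D x y z) : y < x := by
  have h1 := s.eq
  have := s.hD
  have := s.hz
  have h2 : 0 < D * z ^ 2 := by positivity
  exact lt_of_pow_lt_pow_left₀ 4 (Nat.zero_le _) (by omega)

lemma IsSol.hn_pt {D x y z : ℕ} (s : IsSol D x y z) : hn s.pt = 2 * Real.log x := by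
  have hD : (D : ℚ) ≠ 0 := by have := s.hD; positivity
  have hy : (y : ℚ) ≠ 0 := by have := s.hy; positivity
  have hy' := s.hy
  unfold IsSol.pt
  rw [hn_some]
  have e : (D : ℚ) * x ^ 2 / y ^ 2 / D = ((x ^ 2 : ℕ) : ℤ) / ((y ^ 2 : ℕ) : ℤ) := by
    push_cast
    field_simp
  have hcop : Nat.Coprime (((x ^ 2 : ℕ) : ℤ)).natAbs (((y ^ 2 : ℕ) : ℤ)).natAbs := by
    simp only [Int.natAbs_natCast]
    exact Nat.Coprime.pow 2 2 s.cop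
  have hpos : (0 : ℤ) < ((y ^ 2 : ℕ) : ℤ) := by positivity
  rw [e, Rat.logHeight₁_eq_log_max]
  have hnum := Rat.num_div_eq_of_coprime hpos hcop
  have hden := Rat.den_div_eq_of_coprime hpos hcop
  have hden' : (((((x ^ 2 : ℕ) : ℤ) : ℚ) / (((y ^ 2 : ℕ) : ℤ) : ℚ)).den) = y ^ 2 := by
    exact_mod_cast hden
  rw [hnum, hden', Int.natAbs_natCast]
  have hlt := s.lt
  have hmax : max (x ^ 2) (y ^ 2) = x ^ 2 := max_eq_left (Nat.pow_le_pow_left hlt.le 2)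
  rw [hmax]
  push_cast
  rw [Real.log_pow]
  norm_num

/-- `x³ ≤ r`. -/
lemma IsSol.cube_le {D x y z : ℕ} (s : IsSol D x y z) : x ^ 3 ≤ D * z ^ 2 := by
  have h1 := s.eq
  have hlt := s.lt
  have hy := s.hy
  have h2 : y ^ 4 ≤ (x - 1) ^ 4 := Nat.pow_le_pow_left (by omega) 4
  obtain ⟨m, rfl⟩ : ∃ m, x = m + 2 := ⟨x - 2, by omega⟩
  have h3 : (m + 2 - 1) = m + 1 := rfl
  rw [h3] at h2
  have h4 : (m + 2) ^ 4 = (m + 2) ^ 3 + (m + 1) ^ 4 + (3 * m ^ 3 + 12 * m ^ 2 + 16 * m + 7) := by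
    ring
  omega

/-- `r < x⁴`. -/
lemma IsSol.lt_pow {D x y z : ℕ} (s : IsSol D x y z) : D * z ^ 2 < x ^ 4 := by
  have h1 := s.eq
  have hy := s.hy
  have : 0 < y ^ 4 := by positivity
  omega

lemma IsSol.hn_le {D x y z : ℕ} (s : IsSol D x y z) :
    hn s.pt ≤ 2 / 3 * Real.log ((D * z ^ 2 : ℕ) : ℝ) := by
  rw [s.hn_pt]
  have hx : (0 : ℝ) < x := by have := s.hx; positivity
  have h1 : Real.log ((x : ℝ) ^ 3) ≤ Real.log ((D * z ^ 2 : ℕ) : ℝ) := by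
    apply Real.log_le_log (by positivity)
    exact_mod_cast s.cube_le
  rw [Real.log_pow] at h1
  push_cast at h1 ⊢
  linarith

lemma IsSol.le_hn {D x y z : ℕ} (s : IsSol D x y z) :
    1 / 2 * Real.log ((D * z ^ 2 : ℕ) : ℝ) ≤ hn s.pt := by
  rw [s.hn_pt]
  have hx : (0 : ℝ) < x := by have := s.hx; positivity
  have hr : (0 : ℝ) < ((D * z ^ 2 : ℕ) : ℝ) := by
    have := s.hD; have := s.hz; positivity
  have h1 : Real.log ((D * z ^ 2 : ℕ) : ℝ) ≤ Real.log ((x : ℝ) ^ 4) := by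
    apply Real.log_le_log hr
    exact_mod_cast s.lt_pow.le
  rw [Real.log_pow] at h1
  push_cast at h1 ⊢
  linarith

/-- The two ratios differ. -/
lemma IsSol.ratio_ne {D x1 y1 z1 x2 y2 z2 : ℕ} (s1 : IsSol D x1 y1 z1) (s2 : IsSol D x2 y2 z2)
    (hne : (x1, y1) ≠ (x2, y2)) : (x2 : ℤ) ^ 2 * y1 ^ 2 - x1 ^ 2 * y2 ^ 2 ≠ 0 := by
  intro h
  have h1 : (x2 * y1) ^ 2 = (x1 * y2) ^ 2 := by
    have : ((x2 : ℤ) * y1) ^ 2 = (x1 * y2) ^ 2 := by linarith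
    exact_mod_cast this
  have h2 : x2 * y1 = x1 * y2 := Nat.pow_left_injective (n := 2) (by norm_num) h1
  apply hne
  have d1 : x1 ∣ x2 := s1.cop.dvd_of_dvd_mul_right (k := x1) (n := y1) (m := x2) ⟨y2, h2⟩
  have d2 : x2 ∣ x1 := s2.cop.dvd_of_dvd_mul_right (k := x2) (n := y2) (m := x1) ⟨y1, h2.symm⟩
  have e : x1 = x2 := Nat.dvd_antisymm d1 d2
  subst e
  have := Nat.eq_of_mul_eq_mul_left s1.hx h2
  rw [this]

lemma log_lower {g m : ℕ} (hg : 0 < g) (h : g ≤ 4 * m ^ 2) :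
    1 / 2 * Real.log g - Real.log 2 ≤ Real.log m := by
  have hm : 0 < m := by
    rcases Nat.eq_zero_or_pos m with rfl | hm
    · simp at h; omega
    · exact hm
  have h1 : Real.log g ≤ Real.log (4 * (m : ℝ) ^ 2) := by
    apply Real.log_le_log (by positivity)
    exact_mod_cast h
  have h2 : Real.log (4 * (m : ℝ) ^ 2) = 2 * Real.log 2 + 2 * Real.log m := by
    rw [Real.log_mul (by norm_num) (by positivity), Real.log_pow]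
    have : (4 : ℝ) = 2 ^ 2 := by norm_num
    rw [this, Real.log_pow]
    push_cast
    ring
  rw [h2] at h1
  linarith

/-- The repulsion of the points of two solutions. -/
theorem repulsion {D x1 y1 z1 x2 y2 z2 : ℕ} (s1 : IsSol D x1 y1 z1) (s2 : IsSol D x2 y2 z2)
    (hne : (x1, y1) ≠ (x2, y2)) :
    1 / 2 * Real.log (Nat.gcd (D * z1 ^ 2) (D * z2 ^ 2) : ℕ) - Real.log 2 ≤ hn (s1.pt + s2.pt) ∧
    1 / 2 * Real.log (Nat.gcd (D * z1 ^ 2) (D * z2 ^ 2) : ℕ) - Real.log 2 ≤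
      hn (s1.pt - s2.pt) := by
  have hD : (D : ℚ) ≠ 0 := by have := s1.hD; positivity
  have hy1 : (y1 : ℚ) ≠ 0 := by have := s1.hy; positivity
  have hy2 : (y2 : ℚ) ≠ 0 := by have := s2.hy; positivity
  have hL := s1.ratio_ne s2 hne
  have hLq : (x2 : ℚ) ^ 2 * y1 ^ 2 - x1 ^ 2 * y2 ^ 2 ≠ 0 := by exact_mod_cast hL
  have hx : (D : ℚ) * x1 ^ 2 / y1 ^ 2 ≠ D * x2 ^ 2 / y2 ^ 2 := by
    intro h
    apply hLq
    field_simp at h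
    linarith
  have hg : 0 < Nat.gcd (D * z1 ^ 2) (D * z2 ^ 2) := by
    apply Nat.gcd_pos_of_pos_left
    have := s1.hD; have := s1.hz
    positivity
  have hsum : s1.pt + s2.pt = _ := Point.add_of_X_ne (h₁ := s1.nonsing) (h₂ := s2.nonsing) hx
  have hdif : s1.pt - s2.pt = _ :=
    (sub_eq_add_neg _ _).trans ((congrArg _ (Point.neg_some s2.nonsing)).trans
      (Point.add_of_X_ne (h₁ := s1.nonsing) hx))
  have i1 := slope_identity (ε := -1) hD hy1 hy2 (by norm_num) s1.ratEq s2.ratEq hLq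
  have i2 := slope_identity (ε := 1) hD hy1 hy2 (by norm_num) s1.ratEq s2.ratEq hLq
  constructor
  · rw [hsum, hn_some]
    have e1 : (W (D : ℚ)).toAffine.addX (D * x1 ^ 2 / y1 ^ 2) (D * x2 ^ 2 / y2 ^ 2)
        ((W (D : ℚ)).toAffine.slope (D * x1 ^ 2 / y1 ^ 2) (D * x2 ^ 2 / y2 ^ 2)
          (D ^ 2 * z1 * x1 / y1 ^ 3) (D ^ 2 * z2 * x2 / y2 ^ 3)) / D =
        (((D ^ 2 * z1 * x1 / y1 ^ 3 + (-1) * (D ^ 2 * z2 * x2 / y2 ^ 3)) /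
      (D * x1 ^ 2 / y1 ^ 2 - D * x2 ^ 2 / y2 ^ 2)) ^ 2 - D * x1 ^ 2 / y1 ^ 2
        - D * x2 ^ 2 / y2 ^ 2) / D := by
      rw [WeierstrassCurve.Affine.slope_of_X_ne hx]
      simp only [WeierstrassCurve.Affine.addX, W_a1, W_a2]
      ring
    rw [e1, Rat.logHeight₁_eq_log_max]
    apply log_lower hg
    exact height_ge s1 s2 (-1) (by norm_num) hL _ (by rw [i1]; push_cast; ring)
  · rw [hdif, hn_some]
    have e1 : (W (D : ℚ)).toAffine.addX (D * x1 ^ 2 / y1 ^ 2) (D * x2 ^ 2 / y2 ^ 2)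
        ((W (D : ℚ)).toAffine.slope (D * x1 ^ 2 / y1 ^ 2) (D * x2 ^ 2 / y2 ^ 2)
          (D ^ 2 * z1 * x1 / y1 ^ 3) ((W (D : ℚ)).toAffine.negY (D * x2 ^ 2 / y2 ^ 2)
            (D ^ 2 * z2 * x2 / y2 ^ 3))) / D =
        (((D ^ 2 * z1 * x1 / y1 ^ 3 + 1 * (D ^ 2 * z2 * x2 / y2 ^ 3)) /
      (D * x1 ^ 2 / y1 ^ 2 - D * x2 ^ 2 / y2 ^ 2)) ^ 2 - D * x1 ^ 2 / y1 ^ 2
        - D * x2 ^ 2 / y2 ^ 2) / D := by
      rw [WeierstrassCurve.Affine.slope_of_X_ne hx]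
      simp only [WeierstrassCurve.Affine.addX, WeierstrassCurve.Affine.negY, W_a1, W_a2, W_a3]
      ring
    rw [e1, Rat.logHeight₁_eq_log_max]
    apply log_lower hg
    exact height_ge s1 s2 1 (by norm_num) hL _ (by rw [i2]; push_cast; ring)

end Pool.Agent.RB
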